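import Pool.Agent.Lib_helper64.HYB.Kinds

/-!
# Quantum query algorithms with classical adaptivity and a quantum memory (definitions)
-/

set_option autoImplicit false

open Finset

namespace Pool.Agent.QMem

open Pool.Agent.HYB (depol pauli)

/-- An adaptive quantum query algorithm on inputs `x : I → Bool` with a quantum memory `ℂ^S` of any
dimension.

The algorithm works in calls. The record `h : List A` is the list of the outcomes of the finished
calls, the latest one first. In the call which follows the record `h` the memory is first coupled
to a fresh workspace by the isometry `load h e : ℂ^S → ℂ^(A × S)`; then rounds of queries (the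
basis state `a` of `ℂ^(A × S)` is multiplied by the number `phase h e a x` of modulus one, which
depends on the at most `p` coordinates of `x` in the set `query h e a` only) alternate with
norm preserving linear maps `step h e s`; at the end the register `A` is measured in the standard
basis and the outcome is put in front of the record. The register `S`, the memory, is not measured
and stays coherent. Here `e` is a random element of `E` with the distribution `weight h`, which is
not shown to the algorithm (noise, mixed states). Everything may depend on the record in an
arbitrary way. After the last call the algorithm accepts with the probability `accept h`. -/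
structure MemAlg (I A S E : Type) [Fintype A] [Fintype S] [Fintype E] (p : ℕ) where
  /-- the coordinates looked at by a basis state -/
  query : List A → E → A × S → Finset I
  /-- the factor by which a query multiplies a basis state -/
  phase : List A → E → A × S → (I → Bool) → ℂ
  /-- the operations between the rounds of queries -/
  step : List A → E → ℕ → (EuclideanSpace ℂ (A × S) →L[ℂ] EuclideanSpace ℂ (A × S))
  /-- the coupling of the memory to the fresh workspace -/
  load : List A → E → (EuclideanSpace ℂ S →L[ℂ] EuclideanSpace ℂ (A × S))
  /-- the distribution of the hidden randomness of the next call -/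
  weight : List A → E → ℝ
  /-- the probability of acceptance -/
  accept : List A → ℝ
  card_query_le : ∀ h e a, (query h e a).card ≤ p
  norm_phase : ∀ h e a x, ‖phase h e a x‖ = 1
  phase_congr : ∀ h e a x y, (∀ i ∈ query h e a, x i = y i) → phase h e a x = phase h e a y
  norm_step : ∀ h e s φ, ‖step h e s φ‖ = ‖φ‖
  norm_load : ∀ h e φ, ‖load h e φ‖ = ‖φ‖
  weight_nonneg : ∀ h e, 0 ≤ weight h e
  sum_weight : ∀ h, ∑ e, weight h e = 1
  accept_nonneg : ∀ h, 0 ≤ accept h
  accept_le_one : ∀ h, accept h ≤ 1

variable {I A S E : Type} [Fintype A] [Fintype S] [Fintype E] {p : ℕ}

/-- The state of workspace and memory after `s` rounds of the call which follows the record `h`, on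
the input `x`, if the memory is in the state `φ` before the call. -/
noncomputable def MemAlg.state (H : MemAlg I A S E p) (h : List A) (e : E)
    (φ : EuclideanSpace ℂ S) : ℕ → (I → Bool) → EuclideanSpace ℂ (A × S)
  | 0, _ => H.load h e φ
  | s + 1, x => H.step h e s (WithLp.toLp 2 fun a => H.phase h e a x * H.state h e φ s x a)

/-- The state of the memory after the call (`R` rounds) with the outcome `a`, not normalised: the
square of its norm is the probability of the outcome (if `‖φ‖ = 1`). -/
noncomputable def MemAlg.next (H : MemAlg I A S E p) (R : ℕ) (h : List A) (e : E) (a : A)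
    (φ : EuclideanSpace ℂ S) (x : I → Bool) : EuclideanSpace ℂ S :=
  WithLp.toLp 2 fun m => H.state h e φ R x (a, m)

/-- The probability that the algorithm accepts if it is continued for `T` calls of `R` rounds from
the record `h` and the memory state `φ` (times `‖φ‖^2`, if `φ` is not normalised). The acceptance
probability of the whole algorithm, started in the memory state `φ₀`, is `H.prob R T [] φ₀ x`. -/
noncomputable def MemAlg.prob (H : MemAlg I A S E p) (R : ℕ) :
    ℕ → List A → EuclideanSpace ℂ S → (I → Bool) → ℝ
  | 0, h, φ, _ => H.accept h * ‖φ‖ ^ 2
  | T + 1, h, φ, x => ∑ e, H.weight h e * ∑ a, H.prob R T (a :: h) (H.next R h e a φ x) x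

/-- The total query magnitude of the coordinate `i` in the call which follows the record `h`, for
the memory state `φ`: the sum over the `R` rounds of the probability that a measurement of the
state before the queries of the round would give a basis state which looks at `i`. -/
noncomputable def MemAlg.mag [DecidableEq I] (H : MemAlg I A S E p) (R : ℕ) (h : List A) (i : I)
    (φ : EuclideanSpace ℂ S) (x : I → Bool) : ℝ :=
  ∑ e, H.weight h e * ∑ s ∈ Finset.range R, ∑ a, if i ∈ H.query h e a then
    ‖H.state h e φ s x a‖ ^ 2 else 0

/-- The call which follows the record `h` makes its last queries in the round `last` (the rounds are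
numbered from `0`) and at most `c` queries before this round: before the queries of the round `s`
the state has no component on a basis state which looks at more than `P s` coordinates, where
`P s = 0` for `s > last` and `P 0 + ... + P (last - 1) ≤ c`. -/
def MemAlg.Early (H : MemAlg I A S E p) (R last c : ℕ) (h : List A) : Prop :=
  ∃ P : ℕ → ℕ,
    (∀ e φ x s a, s < R → H.state h e φ s x a ≠ 0 → (H.query h e a).card ≤ P s) ∧
    (∀ s, last < s → P s = 0) ∧ ∑ s ∈ Finset.range last, P s ≤ c

/-- The memory consists of a control part (basis `M`) and of another part (basis `N`, of any
dimension), and in the call which follows the record `h` the part `N` takes no part in what happens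
before the queries of the round `last`: up to there the memory acts on the query registers through
its part `M` only. -/
structure MemAlg.Control (H : MemAlg I A S E p) (last : ℕ) (h : List A) {M N : Type} [Fintype M]
    [Fintype N] (mem : S ≃ M × N) : Prop where
  query_eq : ∀ e a m n n', H.query h e (a, mem.symm (m, n)) = H.query h e (a, mem.symm (m, n'))
  phase_eq : ∀ e a m n n', H.phase h e (a, mem.symm (m, n)) = H.phase h e (a, mem.symm (m, n'))
  load_eq : ∀ e, ∃ L : EuclideanSpace ℂ M →L[ℂ] EuclideanSpace ℂ (A × M), ∀ φ a m n,
    H.load h e φ (a, mem.symm (m, n)) =
      L (WithLp.toLp 2 fun m' => φ (mem.symm (m', n))) (a, m)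
  step_eq : ∀ e s, s < last → ∃ U : EuclideanSpace ℂ (A × M) →L[ℂ] EuclideanSpace ℂ (A × M),
    ∀ φ a m n, H.step h e s φ (a, mem.symm (m, n)) =
      U (WithLp.toLp 2 fun b => φ (b.1, mem.symm (b.2, n))) (a, m)

/-- For some mixed state of the memory (the memory state `ψ y` with probability `w y`) the query
magnitude of every coordinate from every memory state `φ`, in the call which follows the record `h`,
is at most `d` times its query magnitude from this mixed state (times `‖φ‖^2`). -/
def MemAlg.Dominated [DecidableEq I] (H : MemAlg I A S E p) (R : ℕ) (d : ℝ) (h : List A) : Prop :=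
  ∃ (Y : Type) (_ : Fintype Y) (w : Y → ℝ) (ψ : Y → EuclideanSpace ℂ S),
    (∀ y, 0 ≤ w y) ∧ ∑ y, w y = 1 ∧ (∀ y, ‖ψ y‖ = 1) ∧
    ∀ i φ x, H.mag R h i φ x ≤ d * ‖φ‖ ^ 2 * ∑ y, w y * H.mag R h i (ψ y) x

/-- The call which follows the record `h` is *shallow*: it makes at most `c` queries before its last
round of queries, and up to this round the memory acts on the query registers through a part of
dimension at most `d` only (`d = 2^m`: through `m` qubits), or, more generally, its query magnitudes
are at most `d` times those from one mixed memory state. -/
def MemAlg.Shallow [DecidableEq I] (H : MemAlg I A S E p) (R c : ℕ) (d : ℝ) (h : List A) : Prop :=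
  ∃ last, H.Early R last c h ∧
    ((∃ (M N : Type) (_ : Fintype M) (_ : Fintype N) (mem : S ≃ M × N),
      (Fintype.card M : ℝ) ≤ d ∧ H.Control last h mem) ∨ H.Dominated R d h)

/-- The call which follows the record `h` has `k` *clean qubits*: workspace and memory split into an
active part (basis `B`) and an idle part (basis `C`, of any dimension); queries and operations act
on the active part only and do not depend on the hidden randomness `e`; and for every memory state
the average of the reduced state of the active part after the coupling `load` (a density matrix) is
at most `2^k` times the maximally mixed state of `ℂ^B`. Example: the active part consists of `k`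
clean qubits, fresh ones or qubits of the memory, and of any number of maximally mixed qubits, and
the idle part of all other qubits of the memory. -/
def MemAlg.Clean (H : MemAlg I A S E p) (k : ℕ) (h : List A) : Prop :=
  ∃ (B C : Type) (_ : Fintype B) (_ : Fintype C) (part : A × S ≃ B × C)
    (query : B → Finset I) (phase : B → (I → Bool) → ℂ)
    (step : ℕ → (EuclideanSpace ℂ B →L[ℂ] EuclideanSpace ℂ B)),
    (∀ e b c, H.query h e (part.symm (b, c)) = query b ∧
      H.phase h e (part.symm (b, c)) = phase b) ∧
    (∀ e s φ b c, H.step h e s φ (part.symm (b, c)) =
      step s (WithLp.toLp 2 fun b' => φ (part.symm (b', c))) b) ∧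
    ∀ (φ : EuclideanSpace ℂ S) (ψ : EuclideanSpace ℂ B), ∑ e, H.weight h e * ∑ c,
      ‖inner ℂ ψ (WithLp.toLp 2 fun b => H.load h e φ (part.symm (b, c)))‖ ^ 2 ≤
        2 ^ k / Fintype.card B * ‖ψ‖ ^ 2 * ‖φ‖ ^ 2

/-- The call which follows the record `h` is *noisy*: workspace and memory consist of `p` address
registers of `l` qubits each and of further qubits (basis `B`); a basis state looks at coordinates
whose addresses are in its address registers only; and before the queries of each of the `R` rounds
the depolarizing noise of rate `lam` acts on all address qubits: the state is
`pauli (v e) (ψ (y e) φ x)` where the random variable `v` (the noise) has the distribution of the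
depolarizing noise and is independent of the random variable `y` (everything else that the state
before the noise depends on, e.g. the noise in the earlier rounds and any other noise). The memory
may be noiseless. -/
def MemAlg.Noisy (H : MemAlg I A S E p) (R : ℕ) (lam : ℝ) (h : List A) : Prop :=
  ∃ (l : ℕ) (B : Type) (_ : Fintype B) (addr : I ↪ (Fin l → Bool))
    (reg : A × S ≃ (Fin p → Fin l → Bool) × B),
    (∀ e a, ∀ i ∈ H.query h e a, ∃ j, (reg a).1 j = addr i) ∧
    ∀ s < R, ∃ (Y : Type) (v : E → Fin p → Fin l → Bool × Bool) (y : E → Y)
      (ψ : Y → EuclideanSpace ℂ S → (I → Bool) →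
        EuclideanSpace ℂ ((Fin p → Fin l → Bool) × B)),
      (∀ F : (Fin p → Fin l → Bool × Bool) → Y → ℝ, ∑ e, H.weight h e * F (v e) (y e) =
        ∑ e, H.weight h e * ∑ u, (∏ j, depol lam (u j)) * F u (y e)) ∧
      ∀ e φ x a, H.state h e φ s x a = pauli (v e) (ψ (y e) φ x) (reg a)

/-- `2^20 n^6 (16 n)^(2 c) / X` -/
noncomputable def polyBound (n c : ℕ) (X : ℝ) : ℝ :=
  2 ^ 20 * (n : ℝ) ^ 6 * (16 * n) ^ (2 * c) / X

end Pool.Agent.QMem
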