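import Pool.Agent.Lib_helper30.QM.OL

/-!
# Calls with a control part of the memory

`dominated_of_control`: if only a part of the memory, of dimension `d`, acts on the query registers
before the last queries of a call, then the query magnitudes are at most `d` times those from one
mixed memory state.
-/

set_option autoImplicit false
set_option linter.unusedSectionVars false

open Finset

namespace Pool.Agent.QMem

open Pool.Agent.Lib_helper8.QAA
open Pool.Agent.HYB

variable {I : Type} [Fintype I] [DecidableEq I]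
variable {A S E : Type} [Fintype A] [Fintype S] [Fintype E] {p : ℕ}

section control

variable {M N : Type} [Fintype M] [Fintype N]

/-- the part of a memory state with the index `n` of the other part -/
noncomputable def ml (mem : S ≃ M × N) (n : N) (φ : Vc S) : Vc M :=
  WithLp.toLp 2 fun m => φ (mem.symm (m, n))

lemma ml_norm (mem : S ≃ M × N) (φ : Vc S) : ∑ n, ‖ml mem n φ‖ ^ 2 = ‖φ‖ ^ 2 := by
  rw [norm_sq_eq, ← Equiv.sum_comp mem.symm, Fintype.sum_prod_type, Finset.sum_comm]
  refine Finset.sum_congr rfl fun c _ => ?_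
  rw [norm_sq_eq]
  rfl

lemma control_state (H : MemAlg I A S E p) {last : ℕ} {h : List A} {mem : S ≃ M × N}
    (hc : H.Control last h mem) (n₀ : N) (e : E) (x : I → Bool) (s : ℕ) (hs : s ≤ last) :
    ∃ V : Vc M →L[ℂ] Vc (A × M), ∀ φ a m n,
      H.state h e φ s x (a, mem.symm (m, n)) = V (ml mem n φ) (a, m) := by
  induction s with
  | zero =>
    obtain ⟨L, hL⟩ := hc.load_eq e
    exact ⟨L, hL⟩
  | succ s ih =>
    obtain ⟨V, hV⟩ := ih (by omega)
    obtain ⟨U, hU⟩ := hc.step_eq e s (by omega)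
    -- the queries as a linear map
    let O : Vc (A × M) →ₗ[ℂ] Vc (A × M) :=
      { toFun := fun Φ => WithLp.toLp 2 fun b => H.phase h e (b.1, mem.symm (b.2, n₀)) x * Φ b
        map_add' := fun Φ Φ' => by
          ext b
          simp only [PiLp.add_apply, mul_add]
        map_smul' := fun c Φ => by
          ext b
          simp only [PiLp.smul_apply, smul_eq_mul, RingHom.id_apply]
          ring }
    refine ⟨U.comp ((LinearMap.toContinuousLinearMap O).comp V), fun φ a m n => ?_⟩
    show H.step h e s (WithLp.toLp 2 fun a => H.phase h e a x * H.state h e φ s x a)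
      (a, mem.symm (m, n)) = U (O (V (ml mem n φ))) (a, m)
    have h1 : (WithLp.toLp 2 fun b : A × M => (WithLp.toLp 2 fun a => H.phase h e a x *
        H.state h e φ s x a : Vc (A × S)) (b.1, mem.symm (b.2, n)) : Vc (A × M)) =
        O (V (ml mem n φ)) := by
      ext b
      show H.phase h e (b.1, mem.symm (b.2, n)) x *
        H.state h e φ s x (b.1, mem.symm (b.2, n)) =
        H.phase h e (b.1, mem.symm (b.2, n₀)) x * V (ml mem n φ) b
      rw [hV, hc.phase_eq e b.1 b.2 n n₀]
    rw [hU, h1]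

lemma clm_le {W W' : Type} [Fintype W] [DecidableEq W] (V : Vc W →L[ℂ] Vc W') (u : Vc W)
    (b : W') : ‖V u b‖ ^ 2 ≤ ‖u‖ ^ 2 * ∑ m, ‖V (EuclideanSpace.single m (1 : ℂ)) b‖ ^ 2 := by
  rw [clm_coord V u b]
  have h1 : ‖∑ m, V (EuclideanSpace.single m (1 : ℂ)) b * u m‖ ≤
      ∑ m, ‖V (EuclideanSpace.single m (1 : ℂ)) b‖ * ‖u m‖ := by
    refine (norm_sum_le _ _).trans (le_of_eq ?_)
    exact Finset.sum_congr rfl fun m _ => norm_mul _ _
  have h2 := Finset.sum_mul_sq_le_sq_mul_sq univ
    (fun m => ‖V (EuclideanSpace.single m (1 : ℂ)) b‖) (fun m => ‖u m‖)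
  calc ‖∑ m, V (EuclideanSpace.single m (1 : ℂ)) b * u m‖ ^ 2
      ≤ (∑ m, ‖V (EuclideanSpace.single m (1 : ℂ)) b‖ * ‖u m‖) ^ 2 :=
        pow_le_pow_left₀ (norm_nonneg _) h1 2
    _ ≤ (∑ m, ‖V (EuclideanSpace.single m (1 : ℂ)) b‖ ^ 2) * ∑ m, ‖u m‖ ^ 2 := h2
    _ = ‖u‖ ^ 2 * ∑ m, ‖V (EuclideanSpace.single m (1 : ℂ)) b‖ ^ 2 := by
        rw [norm_sq_eq u, mul_comm]

lemma control_term (H : MemAlg I A S E p) {last : ℕ} {h : List A} {mem : S ≃ M × N}
    [DecidableEq S] (hc : H.Control last h mem) (n₀ : N) (e : E) (x : I → Bool) (s : ℕ)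
    (hs : s ≤ last) (i : I) (φ : Vc S) :
    ∑ a, (if i ∈ H.query h e a then ‖H.state h e φ s x a‖ ^ 2 else 0) ≤
      ‖φ‖ ^ 2 * ∑ m : M, ∑ a, (if i ∈ H.query h e a then
        ‖H.state h e (EuclideanSpace.single (mem.symm (m, n₀)) (1 : ℂ)) s x a‖ ^ 2 else 0) := by
  classical
  obtain ⟨V, hV⟩ := control_state H hc n₀ e x s hs
  set G : Vc M → ℝ := fun u => ∑ a : A, ∑ m : M,
    (if i ∈ H.query h e (a, mem.symm (m, n₀)) then ‖V u (a, m)‖ ^ 2 else 0) with hG
  have h1 : ∀ φ : Vc S, ∑ a, (if i ∈ H.query h e a then ‖H.state h e φ s x a‖ ^ 2 else 0) =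
      ∑ n, G (ml mem n φ) := by
    intro φ
    rw [Fintype.sum_prod_type, hG]
    dsimp only
    rw [Finset.sum_comm (s := (univ : Finset N))]
    refine Finset.sum_congr rfl fun a _ => ?_
    rw [← Equiv.sum_comp mem.symm, Fintype.sum_prod_type, Finset.sum_comm]
    refine Finset.sum_congr rfl fun n _ => Finset.sum_congr rfl fun m _ => ?_
    rw [hV, hc.query_eq e a m n n₀]
  have h2 : ∀ u : Vc M, G u ≤ ‖u‖ ^ 2 * ∑ m, G (EuclideanSpace.single m (1 : ℂ)) := by
    intro u
    rw [hG]
    dsimp only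
    rw [Finset.sum_comm (s := (univ : Finset M)), Finset.mul_sum]
    refine Finset.sum_le_sum fun a _ => ?_
    rw [Finset.sum_comm (s := (univ : Finset M)), Finset.mul_sum]
    refine Finset.sum_le_sum fun m _ => ?_
    split_ifs with hi
    · exact clm_le V u (a, m)
    · simp
  have h3 : ∀ (m : M), ∑ n, G (ml mem n (EuclideanSpace.single (mem.symm (m, n₀)) (1 : ℂ))) =
      G (EuclideanSpace.single m (1 : ℂ)) := by
    intro m
    have h4 : ∀ n, ml mem n (EuclideanSpace.single (mem.symm (m, n₀)) (1 : ℂ)) =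
        if n = n₀ then EuclideanSpace.single m (1 : ℂ) else 0 := by
      intro n
      ext m'
      show (EuclideanSpace.single (mem.symm (m, n₀)) (1 : ℂ) : Vc S) (mem.symm (m', n)) = _
      rw [PiLp.single_apply]
      by_cases hn : n = n₀
      · subst hn
        rw [if_pos rfl, PiLp.single_apply]
        simp
      · rw [if_neg hn, if_neg]
        · rfl
        · intro heq
          have := mem.symm.injective heq
          exact hn (Prod.ext_iff.1 this).2
    rw [Finset.sum_eq_single n₀]
    · rw [h4, if_pos rfl]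
    · intro n _ hn
      rw [h4, if_neg hn, hG]
      simp
    · intro hn
      exact absurd (Finset.mem_univ n₀) hn
  simp only [h1, h3]
  calc ∑ n, G (ml mem n φ) ≤ ∑ n, ‖ml mem n φ‖ ^ 2 * ∑ m, G (EuclideanSpace.single m (1 : ℂ)) :=
        Finset.sum_le_sum fun n _ => h2 _
    _ = ‖φ‖ ^ 2 * ∑ m, G (EuclideanSpace.single m (1 : ℂ)) := by
        rw [← Finset.sum_mul, ml_norm]

/-- If only a part of the memory, of dimension `card M`, acts on the query registers before the
last queries of the call, then the query magnitudes are at most `card M` times those from one mixed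
memory state. -/
theorem dominated_of_control (H : MemAlg I A S E p) {R last c : ℕ} {h : List A}
    (hr : H.Early R last c h) [Nonempty S] (mem : S ≃ M × N) (hc : H.Control last h mem) :
    H.Dominated R (Fintype.card M) h := by
  classical
  obtain ⟨σ⟩ := ‹Nonempty S›
  set n₀ : N := (mem σ).2 with hn₀
  have hM : Nonempty M := ⟨(mem σ).1⟩
  have hMpos : (0 : ℝ) < Fintype.card M := by exact_mod_cast Fintype.card_pos
  refine ⟨M, inferInstance, fun _ => 1 / Fintype.card M,
    fun m => EuclideanSpace.single (mem.symm (m, n₀)) (1 : ℂ), fun _ => by positivity, ?_,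
    fun m => by simp, fun i φ x => ?_⟩
  · rw [Finset.sum_const, Finset.card_univ, nsmul_eq_mul]
    field_simp
  · have e1 : (Fintype.card M : ℝ) * ‖φ‖ ^ 2 * ∑ m, 1 / (Fintype.card M : ℝ) *
        H.mag R h i (EuclideanSpace.single (mem.symm (m, n₀)) (1 : ℂ)) x =
        ‖φ‖ ^ 2 * ∑ m, H.mag R h i (EuclideanSpace.single (mem.symm (m, n₀)) (1 : ℂ)) x := by
      rw [← Finset.mul_sum]
      field_simp
    rw [e1]
    unfold MemAlg.mag
    rw [Finset.sum_comm (s := (univ : Finset M)), Finset.mul_sum]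
    refine Finset.sum_le_sum fun e _ => ?_
    have h5 : ∑ s ∈ Finset.range R, ∑ a, (if i ∈ H.query h e a then
        ‖H.state h e φ s x a‖ ^ 2 else 0) ≤ ‖φ‖ ^ 2 * ∑ s ∈ Finset.range R, ∑ m : M, ∑ a,
        (if i ∈ H.query h e a then
          ‖H.state h e (EuclideanSpace.single (mem.symm (m, n₀)) (1 : ℂ)) s x a‖ ^ 2 else 0) := by
      rw [Finset.mul_sum]
      refine Finset.sum_le_sum fun s hs => ?_
      rw [Finset.mem_range] at hs
      by_cases hsr : s ≤ last
      · exact control_term H hc n₀ e x s hsr i φ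
      · refine le_trans (le_of_eq ?_) (mul_nonneg (by positivity) (Finset.sum_nonneg fun m _ =>
          Finset.sum_nonneg fun a _ => by split_ifs <;> positivity))
        refine Finset.sum_eq_zero fun a _ => ?_
        by_cases h0 : H.state h e φ s x a = 0
        · rw [h0]
          simp
        · obtain ⟨P, hP1, hP2, -⟩ := hr
          have h2 := hP1 e φ x s a hs h0
          rw [hP2 s (not_le.1 hsr), Nat.le_zero, Finset.card_eq_zero] at h2
          rw [h2, if_neg (Finset.notMem_empty i)]
    refine (mul_le_mul_of_nonneg_left h5 (H.weight_nonneg h e)).trans (le_of_eq ?_)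
    rw [Finset.sum_comm (s := Finset.range R), ← Finset.mul_sum]
    ring

end control

lemma dominated_mono (H : MemAlg I A S E p) {R : ℕ} {h : List A} {d d' : ℝ}
    (hH : H.Dominated R d h) (hd : d ≤ d') : H.Dominated R d' h := by
  obtain ⟨Y, _, w, ψ, hw, hw1, hψ, hmag⟩ := hH
  refine ⟨Y, inferInstance, w, ψ, hw, hw1, hψ, fun i φ x => (hmag i φ x).trans ?_⟩
  have h1 : 0 ≤ ∑ y, w y * H.mag R h i (ψ y) x :=
    Finset.sum_nonneg fun y _ => mul_nonneg (hw y) (mag_nonneg H R h i (ψ y) x)
  gcongr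

end Pool.Agent.QMem
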