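import Pool.Agent.Lib_helper30.QM.OC

/-!
# Algorithms without memory

The algorithms without a quantum memory (`Hybrid`) are the case `S = Unit`, `d = 1`.
-/

set_option autoImplicit false
set_option linter.unusedSectionVars false

open Finset

namespace Pool.Agent.QMem

open Pool.Agent.Lib_helper8.QAA
open Pool.Agent.HYB
open Pool.Agent.Lib_helper93.QSim (DTree pr)

variable {I : Type} [Fintype I] [DecidableEq I]
variable {A E : Type} [Fintype A] [Fintype E] {p : ℕ}

/-- `ℂ^(A × Unit) = ℂ^A` -/
noncomputable def unitL (A : Type) [Fintype A] : Vc (A × Unit) →L[ℂ] Vc A :=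
  LinearMap.toContinuousLinearMap
    { toFun := fun Φ => WithLp.toLp 2 fun a => Φ (a, ())
      map_add' := fun _ _ => rfl
      map_smul' := fun _ _ => rfl }

/-- `ℂ^A = ℂ^(A × Unit)` -/
noncomputable def unitR (A : Type) [Fintype A] : Vc A →L[ℂ] Vc (A × Unit) :=
  LinearMap.toContinuousLinearMap
    { toFun := fun Φ => WithLp.toLp 2 fun a => Φ a.1
      map_add' := fun _ _ => rfl
      map_smul' := fun _ _ => rfl }

lemma unitL_apply (Φ : Vc (A × Unit)) (a : A) : unitL A Φ a = Φ (a, ()) := rfl

lemma unitR_apply (Φ : Vc A) (a : A × Unit) : unitR A Φ a = Φ a.1 := rfl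

lemma unitL_norm (Φ : Vc (A × Unit)) : ‖unitL A Φ‖ = ‖Φ‖ := by
  refine (sq_eq_sq₀ (norm_nonneg _) (norm_nonneg _)).1 ?_
  rw [norm_sq_eq, norm_sq_eq, Fintype.sum_prod_type]
  refine Finset.sum_congr rfl fun a _ => ?_
  simp [unitL_apply]

lemma unitR_norm (Φ : Vc A) : ‖unitR A Φ‖ = ‖Φ‖ := by
  refine (sq_eq_sq₀ (norm_nonneg _) (norm_nonneg _)).1 ?_
  rw [norm_sq_eq, norm_sq_eq, Fintype.sum_prod_type]
  refine Finset.sum_congr rfl fun a _ => ?_
  simp [unitR_apply]

/-- a vector as a map on `ℂ^Unit` -/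
noncomputable def unitM (u : Vc A) : Vc Unit →L[ℂ] Vc A :=
  LinearMap.toContinuousLinearMap
    { toFun := fun φ => φ () • u
      map_add' := fun φ ψ => by rw [PiLp.add_apply, add_smul]
      map_smul' := fun c φ => by
        rw [PiLp.smul_apply, smul_eq_mul, mul_smul, RingHom.id_apply] }

lemma unitM_apply (u : Vc A) (φ : Vc Unit) : unitM u φ = φ () • u := rfl

lemma unit_norm (φ : Vc Unit) : ‖φ‖ = ‖φ ()‖ := by
  refine (sq_eq_sq₀ (norm_nonneg _) (norm_nonneg _)).1 ?_
  rw [norm_sq_eq]
  simp

/-- An algorithm without memory as an algorithm with the memory `ℂ^Unit`. -/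
noncomputable def ofHybrid (H : Hybrid I A E p) : MemAlg I A Unit E p where
  query h e a := (H.stage h e).query a.1
  phase h e a := (H.stage h e).phase a.1
  step h e s := (unitR A).comp (((H.stage h e).step s).comp (unitL A))
  load h e := (unitR A).comp (unitM (H.stage h e).init)
  weight := H.weight
  accept := H.accept
  card_query_le h e a := (H.stage h e).card_query_le a.1
  norm_phase h e a x := H.norm_phase h e a.1 x
  phase_congr h e a x y hxy := (H.stage h e).phase_congr a.1 x y hxy
  norm_step h e s φ := by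
    show ‖unitR A ((H.stage h e).step s (unitL A φ))‖ = ‖φ‖
    rw [unitR_norm, H.norm_step, unitL_norm]
  norm_load h e φ := by
    show ‖unitR A (unitM (H.stage h e).init φ)‖ = ‖φ‖
    rw [unitR_norm, unitM_apply, norm_smul, H.norm_init, mul_one, unit_norm]
  weight_nonneg := H.weight_nonneg
  sum_weight := H.sum_weight
  accept_nonneg := H.accept_nonneg
  accept_le_one := H.accept_le_one

lemma ofHybrid_state (H : Hybrid I A E p) (h : List A) (e : E) (φ : Vc Unit) (x : I → Bool) :
    ∀ s : ℕ, (ofHybrid H).state h e φ s x = φ () • unitR A ((H.stage h e).state s x)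
  | 0 => by
    show unitR A (φ () • (H.stage h e).init) = _
    rw [map_smul]
    rfl
  | s + 1 => by
    have ih := ofHybrid_state H h e φ x s
    show unitR A ((H.stage h e).step s (unitL A (WithLp.toLp 2 fun a =>
      (H.stage h e).phase a.1 x * (ofHybrid H).state h e φ s x a))) = _
    rw [ih]
    have h1 : unitL A (WithLp.toLp 2 fun a : A × Unit => (H.stage h e).phase a.1 x *
        (φ () • unitR A ((H.stage h e).state s x)) a) =
        φ () • (H.stage h e).oracle x ((H.stage h e).state s x) := by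
      ext a
      show (H.stage h e).phase a x * (φ () * (H.stage h e).state s x a) =
        φ () * ((H.stage h e).phase a x * (H.stage h e).state s x a)
      ring
    rw [h1, map_smul, map_smul]
    rfl

lemma ofHybrid_mag (H : Hybrid I A E p) (R : ℕ) (h : List A) (i : I) (φ : Vc Unit)
    (x : I → Bool) : (ofHybrid H).mag R h i φ x = ‖φ‖ ^ 2 * H.mag R h i x := by
  classical
  unfold MemAlg.mag Hybrid.mag
  rw [Finset.mul_sum]
  refine Finset.sum_congr rfl fun e _ => ?_
  rw [mul_left_comm]
  show H.weight h e * _ = H.weight h e * _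
  congr 1
  rw [Finset.mul_sum]
  refine Finset.sum_congr rfl fun s _ => ?_
  unfold pm Algorithm.look
  rw [Finset.sum_filter, Fintype.sum_prod_type, Finset.mul_sum]
  refine Finset.sum_congr rfl fun a _ => ?_
  rw [Fintype.sum_unique]
  show (if i ∈ (H.stage h e).query a then _ else _) = _
  split_ifs
  · rw [ofHybrid_state, PiLp.smul_apply, norm_smul, mul_pow, unit_norm]
    rfl
  · rw [mul_zero]

/-- The acceptance probability is the same. -/
theorem ofHybrid_prob (H : Hybrid I A E p) (R T : ℕ) : ∀ (h : List A) (φ : Vc Unit)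
    (x : I → Bool), (ofHybrid H).prob R T h φ x = ‖φ‖ ^ 2 * H.prob R T h x := by
  induction T with
  | zero =>
    intro h φ x
    exact mul_comm _ _
  | succ T ih =>
    intro h φ x
    show ∑ e, H.weight h e * ∑ a, (ofHybrid H).prob R T (a :: h)
      ((ofHybrid H).next R h e a φ x) x = _
    have h1 : ∀ e a, ‖(ofHybrid H).next R h e a φ x‖ ^ 2 =
        ‖φ‖ ^ 2 * ‖(H.stage h e).state R x a‖ ^ 2 := by
      intro e a
      rw [unit_norm, unit_norm φ, ← mul_pow, ← norm_mul]
      show ‖(ofHybrid H).state h e φ R x (a, ())‖ ^ 2 = _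
      rw [ofHybrid_state]
      rfl
    simp only [ih, h1]
    show _ = ‖φ‖ ^ 2 * ∑ a, (∑ e, H.weight h e * ‖(H.stage h e).state R x a‖ ^ 2) *
      H.prob R T (a :: h) x
    simp only [Finset.sum_mul, Finset.mul_sum]
    rw [Finset.sum_comm]
    refine Finset.sum_congr rfl fun a _ => Finset.sum_congr rfl fun e _ => ?_
    ring

/-- A short stage is a shallow call with `d = 1` and at most `(r - 1) p` queries before the last
round of queries. -/
theorem ofHybrid_short (H : Hybrid I A E p) {R r : ℕ} {h : List A} (hH : H.Short R r h) :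
    (ofHybrid H).Shallow R ((r - 1) * p) 1 h := by
  refine ⟨r - 1, ⟨fun s => if s < r then p else 0, fun e φ x s a hsR hne => ?_,
    fun s hs => if_neg (by omega), ?_⟩, Or.inr ⟨Unit, inferInstance, fun _ => 1,
    fun _ => EuclideanSpace.single () (1 : ℂ), fun _ => zero_le_one, by simp,
    fun _ => by simp, fun i φ x => ?_⟩⟩
  · dsimp only
    by_cases hsr : s < r
    · rw [if_pos hsr]
      exact (ofHybrid H).card_query_le h e a
    · rw [if_neg hsr, Nat.le_zero, Finset.card_eq_zero]
      refine hH e x s a.1 (not_lt.1 hsr) hsR fun h0 => hne ?_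
      rw [ofHybrid_state, PiLp.smul_apply, unitR_apply, h0, smul_zero]
  · refine (Finset.sum_le_card_nsmul _ _ p fun s _ => ?_).trans (by simp)
    dsimp only
    split_ifs
    · exact le_rfl
    · exact Nat.zero_le _
  · rw [ofHybrid_mag]
    simp [ofHybrid_mag]

/-- A stage with `k` clean qubits is a call with `k` clean qubits. -/
theorem ofHybrid_clean (H : Hybrid I A E p) {k : ℕ} {h : List A} (hH : H.Clean k h) :
    (ofHybrid H).Clean k h := by
  have hE : Nonempty E := by
    by_contra hne
    rw [not_nonempty_iff] at hne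
    have := H.sum_weight h
    simp at this
  obtain ⟨e₀⟩ := hE
  refine ⟨A, Unit, inferInstance, inferInstance, Equiv.refl _, (H.stage h e₀).query,
    (H.stage h e₀).phase, (H.stage h e₀).step, fun e b c => ?_, fun e s φ b c => ?_,
    fun φ ψ => ?_⟩
  · exact ⟨congrFun (hH.1 e e₀).1 b, congrFun (hH.1 e e₀).2.1 b⟩
  · show (H.stage h e).step s (unitL A φ) b = (H.stage h e₀).step s _ b
    rw [(hH.1 e e₀).2.2]
    rfl
  · have h1 := mul_le_mul_of_nonneg_left (hH.2 ψ) (sq_nonneg ‖φ‖)
    refine le_trans (le_of_eq ?_) (h1.trans (le_of_eq (by ring)))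
    rw [Finset.mul_sum]
    refine Finset.sum_congr rfl fun e _ => ?_
    rw [Fintype.sum_unique]
    have h2 : (WithLp.toLp 2 fun b : A => (ofHybrid H).load h e φ
        ((Equiv.refl (A × Unit)).symm (b, default)) : Vc A) = φ () • (H.stage h e).init := rfl
    rw [h2, inner_smul_right, norm_mul, mul_pow, unit_norm φ]
    show H.weight h e * _ = _
    ring

/-- A noisy stage is a noisy call. -/
theorem ofHybrid_noisy (H : Hybrid I A E p) {R : ℕ} {lam : ℝ} {h : List A}
    (hH : H.Noisy R lam h) : (ofHybrid H).Noisy R lam h := by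
  obtain ⟨l, B, instB, addr, reg, hq, hs⟩ := hH
  refine ⟨l, B, instB, addr, (Equiv.prodPUnit A).trans reg, fun e a i hi => hq e a.1 i hi,
    fun s hsR => ?_⟩
  obtain ⟨Y, v, y, ψ, hF, hst⟩ := hs s hsR
  refine ⟨Y, v, y, fun y' φ x => φ () • ψ y' x, hF, fun e φ x a => ?_⟩
  rw [ofHybrid_state]
  show φ () * (H.stage h e).state s x a.1 = _
  rw [hst e x a.1]
  show φ () * ((∏ j, ∏ q, if ((v e j q).2 && (reg a.1).1 j q) = true then (-1 : ℂ) else 1) *
      ψ (y e) x (fun j q => xor ((reg a.1).1 j q) (v e j q).1, (reg a.1).2)) =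
    (∏ j, ∏ q, if ((v e j q).2 && (reg a.1).1 j q) = true then (-1 : ℂ) else 1) *
      (φ () * ψ (y e) x (fun j q => xor ((reg a.1).1 j q) (v e j q).1, (reg a.1).2))
  ring

/-- The theorem for algorithms without memory (the former hand-in `Hybrid`) is a special case. -/
theorem hybrid_of_memory (H : Hybrid I A E p) {T R r k : ℕ} {lam : ℝ} (hn : 1 ≤ T * R * p)
    (hlam : 0 < lam) (hlam' : lam ≤ 1)
    (hH : ∀ h, H.Short R r h ∨ H.Clean k h ∨ H.Noisy R lam h) :
    (∀ v : ℝ, 0 < v → variance (H.prob R T []) = v →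
      ∃ i, 1 / (2 ^ (4 * k) * bound T R p r (v ^ 2) ^
          (4 * max 2 (1 / Real.logb 2 (1 / (1 - lam / 2))) + 2)) ≤
        influence (H.prob R T []) i) ∧
    (∀ ε δ : ℝ, 0 < ε → ε ≤ 1 → 0 < δ → δ ≤ 1 →
      ∃ t : DTree I ℝ,
        (t.depth : ℝ) ≤ 2 ^ (2 * k) * bound T R p r (ε ^ 4 * δ ^ 2) ^
          (2 * max 2 (1 / Real.logb 2 (1 / (1 - lam / 2))) + 1) ∧
        pr {x | ε < |H.prob R T [] x - t.eval x|} ≤ δ) := by
  have hφ : ‖(EuclideanSpace.single () (1 : ℂ) : Vc Unit)‖ = 1 := by simp
  have hG : ∀ h, (ofHybrid H).Shallow R ((r - 1) * p) 1 h ∨ (ofHybrid H).Clean k h ∨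
      (ofHybrid H).Noisy R lam h := fun h =>
    (hH h).imp (ofHybrid_short H) fun h' => h'.imp (ofHybrid_clean H) (ofHybrid_noisy H)
  have hp : (ofHybrid H).prob R T [] (EuclideanSpace.single () (1 : ℂ)) = H.prob R T [] := by
    funext x
    rw [ofHybrid_prob, hφ, one_pow, one_mul]
  have hb : ∀ X, polyBound (T * R * p) ((r - 1) * p) X = bound T R p r X := by
    intro X
    unfold polyBound bound
    push_cast
    rfl
  refine ⟨fun v hv hvar => ?_, fun ε δ hε hε1 hδ hδ1 => ?_⟩
  · have := qm_infl (ofHybrid H) hφ hn hlam hlam' le_rfl hG hv (by rw [hp]; exact hvar)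
      (le_max_left _ _) (le_max_right _ _)
    rw [hp, div_one, hb] at this
    exact this
  · have := qm_sim (ofHybrid H) hφ hn hlam hlam' le_rfl hG hε hε1 hδ hδ1
      (le_max_left _ _) (le_max_right _ _)
    rw [hp, div_one, hb] at this
    exact this

end Pool.Agent.QMem
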