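import Pool.Agent.Lib_helper30.QM.OK

/-!
# Examples of algorithms with an unlimited coherent memory

The hypotheses of the theorem hold, with `c = 0` and `d = 1`, for every algorithm of the following
form, for a memory `ℂ^S` of any dimension: in the call after the record `h` the query registers are
prepared in the state `α h` (which depends on the record only), one round of queries is made, then
an arbitrary unitary operation `U h` acts on workspace and memory, and the workspace is measured.
-/

set_option autoImplicit false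
set_option linter.unusedSectionVars false

open Finset

namespace Pool.Agent.QMem

open Pool.Agent.Lib_helper8.QAA
open Pool.Agent.HYB

variable {I : Type} [Fintype I] [DecidableEq I]
variable {A S : Type} [Fintype A] [Fintype S] {p : ℕ}

/-- `φ ↦ α ⊗ φ` -/
noncomputable def tens (S : Type) [Fintype S] (α : Vc A) : Vc S →L[ℂ] Vc (A × S) :=
  LinearMap.toContinuousLinearMap
    { toFun := fun φ => WithLp.toLp 2 fun z => α z.1 * φ z.2
      map_add' := fun φ ψ => by
        ext z
        simp only [PiLp.add_apply, mul_add]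
      map_smul' := fun c φ => by
        ext z
        simp only [PiLp.smul_apply, smul_eq_mul, RingHom.id_apply]
        ring }

lemma tens_apply (α : Vc A) (φ : Vc S) (z : A × S) : tens S α φ z = α z.1 * φ z.2 := rfl

lemma tens_norm {α : Vc A} (hα : ‖α‖ = 1) (φ : Vc S) : ‖tens S α φ‖ = ‖φ‖ := by
  refine (sq_eq_sq₀ (norm_nonneg _) (norm_nonneg _)).1 ?_
  rw [norm_sq_eq, Fintype.sum_prod_type]
  have h1 : ∀ a, ∑ s, ‖tens S α φ (a, s)‖ ^ 2 = ‖α a‖ ^ 2 * ‖φ‖ ^ 2 := by
    intro a
    rw [norm_sq_eq φ, Finset.mul_sum]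
    refine Finset.sum_congr rfl fun s _ => ?_
    rw [tens_apply, norm_mul, mul_pow]
  simp_rw [h1]
  rw [← Finset.sum_mul, ← norm_sq_eq, hα, one_pow, one_mul]

/-- One round of queries prepared from the record only, then an arbitrary unitary operation on
workspace and memory. -/
noncomputable def exAlg (query : List A → A → Finset I) (hq : ∀ h a, (query h a).card ≤ p)
    (phase : List A → A → (I → Bool) → ℂ) (hph : ∀ h a x, ‖phase h a x‖ = 1)
    (hpc : ∀ h a x y, (∀ i ∈ query h a, x i = y i) → phase h a x = phase h a y)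
    (α : List A → Vc A) (hα : ∀ h, ‖α h‖ = 1) (U : List A → Vc (A × S) →L[ℂ] Vc (A × S))
    (hU : ∀ h φ, ‖U h φ‖ = ‖φ‖) (accept : List A → ℝ) (ha0 : ∀ h, 0 ≤ accept h)
    (ha1 : ∀ h, accept h ≤ 1) : MemAlg I A S Unit p where
  query h _ z := query h z.1
  phase h _ z := phase h z.1
  step h _ _ := U h
  load h _ := tens S (α h)
  weight _ _ := 1
  accept := accept
  card_query_le h _ z := hq h z.1
  norm_phase h _ z := hph h z.1
  phase_congr h _ z := hpc h z.1
  norm_step h _ _ := hU h
  norm_load h _ := tens_norm (hα h)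
  weight_nonneg _ _ := zero_le_one
  sum_weight _ := by simp
  accept_nonneg := ha0
  accept_le_one := ha1

/-- It is shallow with `c = 0` and `d = 1`, for every dimension of the memory. -/
theorem exAlg_shallow (query : List A → A → Finset I) (hq : ∀ h a, (query h a).card ≤ p)
    (phase : List A → A → (I → Bool) → ℂ) (hph : ∀ h a x, ‖phase h a x‖ = 1)
    (hpc : ∀ h a x y, (∀ i ∈ query h a, x i = y i) → phase h a x = phase h a y)
    (α : List A → Vc A) (hα : ∀ h, ‖α h‖ = 1) (U : List A → Vc (A × S) →L[ℂ] Vc (A × S))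
    (hU : ∀ h φ, ‖U h φ‖ = ‖φ‖) (accept : List A → ℝ) (ha0 : ∀ h, 0 ≤ accept h)
    (ha1 : ∀ h, accept h ≤ 1) (h : List A) :
    (exAlg query hq phase hph hpc α hα U hU accept ha0 ha1).Shallow 1 0 1 h := by
  refine ⟨0, ⟨fun s => if s = 0 then p else 0, fun e φ x s z hs _ => ?_, fun s hs => ?_, by simp⟩,
    Or.inl ⟨Unit, S, inferInstance, inferInstance, (Equiv.punitProd S).symm, by simp, ?_⟩⟩
  · have h0 : s = 0 := by omega
    simp only [h0, if_true]
    exact hq h z.1
  · simp only [Nat.pos_iff_ne_zero.1 hs, if_false]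
  · refine ⟨fun _ _ _ _ _ => rfl, fun _ _ _ _ _ => rfl, fun e => ⟨tens Unit (α h),
      fun φ a m n => rfl⟩, fun e s hs => absurd hs (Nat.not_lt_zero s)⟩

end Pool.Agent.QMem
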