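import Pool.Agent.Lib_helper30.QM.OK

/-!
# Algorithms with a quantum memory: the bounds
-/

set_option autoImplicit false
set_option linter.unusedSectionVars false

open Finset

namespace Pool.Agent.QMem

open Pool.Agent.Lib_helper8.QAA
open Pool.Agent.HYB
open Pool.Agent.Lib_helper93.QSim (DTree pr)

variable {I : Type} [Fintype I] [DecidableEq I]
variable {A S E : Type} [Fintype A] [Fintype S] [Fintype E] {p : ℕ}

/-! ### The acceptance probability is between `0` and `1` -/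

lemma qm_prob_mem (H : MemAlg I A S E p) (R T : ℕ) : ∀ (h : List A) (φ : Vc S) (x : I → Bool),
    0 ≤ H.prob R T h φ x ∧ H.prob R T h φ x ≤ ‖φ‖ ^ 2 := by
  induction T with
  | zero =>
    intro h φ x
    refine ⟨mul_nonneg (H.accept_nonneg h) (by positivity), ?_⟩
    exact mul_le_of_le_one_left (by positivity) (H.accept_le_one h)
  | succ T ih =>
    intro h φ x
    constructor
    · exact Finset.sum_nonneg fun e _ => mul_nonneg (H.weight_nonneg h e)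
        (Finset.sum_nonneg fun a _ => (ih (a :: h) _ x).1)
    · have h1 : ∀ e, ∑ a, H.prob R T (a :: h) (H.next R h e a φ x) x ≤ ‖φ‖ ^ 2 := by
        intro e
        refine (Finset.sum_le_sum fun a _ => (ih (a :: h) _ x).2).trans (le_of_eq ?_)
        rw [← state_norm H h e φ x R, norm_sq_eq, Fintype.sum_prod_type]
        refine Finset.sum_congr rfl fun a _ => ?_
        rw [norm_sq_eq]
        rfl
      refine (Finset.sum_le_sum fun e _ =>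
        mul_le_mul_of_nonneg_left (h1 e) (H.weight_nonneg h e)).trans (le_of_eq ?_)
      rw [← Finset.sum_mul, H.sum_weight, one_mul]

lemma qm_var_le (H : MemAlg I A S E p) {φ₀ : Vc S} (hφ : ‖φ₀‖ = 1) (R T : ℕ) :
    variance (H.prob R T [] φ₀) ≤ 1 := by
  have h0 : ∀ x, 0 ≤ H.prob R T [] φ₀ x ∧ H.prob R T [] φ₀ x ≤ 1 := by
    intro x
    have := qm_prob_mem H R T [] φ₀ x
    rw [hφ, one_pow] at this
    exact this
  have h1 : ex (fun x : I → Bool => H.prob R T [] φ₀ x ^ 2) ≤ ex (fun _ : I → Bool => (1 : ℝ)) :=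
    ex_mono fun x => pow_le_one₀ (h0 x).1 (h0 x).2
  rw [ex_const] at h1
  have h2 : variance (H.prob R T [] φ₀) =
      ex (fun x : I → Bool => H.prob R T [] φ₀ x ^ 2) - ex (H.prob R T [] φ₀) ^ 2 := rfl
  rw [h2]
  nlinarith [sq_nonneg (ex (H.prob R T [] φ₀))]

/-! ### The bound -/

theorem qm_core (H : MemAlg I A S E p) {φ₀ : Vc S} (hφ : ‖φ₀‖ = 1) {R T c k : ℕ}
    (hn : 1 ≤ T * R * p) {lam : ℝ} (hl0 : 0 < lam) (hl1 : lam ≤ 1) {d : ℝ} (hd : 1 ≤ d)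
    (hH : ∀ h, H.Shallow R c d h ∨ H.Clean k h ∨ H.Noisy R lam h) {Z : ℝ} (hZ0 : 0 < Z)
    (hZ1 : Z ≤ 1) {u : ℝ} (hu2 : 2 ≤ u) (hu : 1 / Real.logb 2 (1 / (1 - lam / 2)) ≤ u) :
    ∃ (J : List A → Finset I) (m : List A → (I → Bool) → ℝ) (W : ℝ), 0 < W ∧
      (∀ h, ((J h).card : ℝ) ≤ W) ∧ (∀ h x, 0 ≤ m h x) ∧
      (∀ h x, ∀ i ∉ J h, ∀ φ, H.mag R h i φ x ≤ m h x * ‖φ‖ ^ 2) ∧
      T * W ≤ 2 ^ k * polyBound (T * R * p) c (Z / d) ^ u ∧
      2 ^ 16 * ((T * R) ^ 3 * p ^ 2 * ex (H.light R m T [] φ₀)) ≤ Z := by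
  have hd0 : 0 < d := by linarith
  obtain ⟨X, hXdef⟩ : ∃ X : ℝ, X = Z / d := ⟨_, rfl⟩
  have hX0 : 0 < X := by rw [hXdef]; positivity
  have hX1 : X ≤ 1 := by
    rw [hXdef, div_le_one hd0]
    linarith
  have hdX : d * X = Z := by rw [hXdef]; field_simp
  rw [← hXdef]
  classical
  set n : ℕ := T * R * p with hndef
  have hT : 1 ≤ T := Nat.pos_of_ne_zero fun h => by rw [hndef, h] at hn; simp at hn
  have hR : 1 ≤ R := Nat.pos_of_ne_zero fun h => by rw [hndef, h] at hn; simp at hn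
  have hp : 1 ≤ p := Nat.pos_of_ne_zero fun h => by rw [hndef, h] at hn; simp at hn
  have hTr : (1 : ℝ) ≤ T := by exact_mod_cast hT
  have hRr : (1 : ℝ) ≤ R := by exact_mod_cast hR
  have hpr : (1 : ℝ) ≤ p := by exact_mod_cast hp
  have hnr : (n : ℝ) = T * R * p := by rw [hndef]; push_cast; ring
  have hn1 : (1 : ℝ) ≤ n := by exact_mod_cast hn
  have hTn : (T : ℝ) ≤ n := by
    have : T ≤ n := by
      rw [hndef, Nat.mul_assoc]
      exact Nat.le_mul_of_pos_right T (Nat.mul_pos hR hp)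
    exact_mod_cast this
  have hRpn : (R : ℝ) * p ≤ n := by
    have : R * p ≤ n := by
      rw [hndef, Nat.mul_assoc]
      exact Nat.le_mul_of_pos_left _ hT
    exact_mod_cast this
  set κ : ℕ := Nat.clog 2 n with hk
  have hk1 : n ≤ 2 ^ κ := Nat.le_pow_clog (by norm_num) n
  have hk2 : 2 ^ κ ≤ 2 * n := by
    rcases Nat.eq_or_lt_of_le hn with h1 | h1
    · have : κ = 0 := by rw [hk, ← h1]; simp
      rw [this]; omega
    · have h2 : 2 ^ (κ - 1) < n := by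
        rw [hk]
        exact Nat.pow_pred_clog_lt_self (by norm_num) h1
      have h3 : 1 ≤ κ := by
        rw [hk]
        exact Nat.clog_pos (by norm_num) h1
      have h4 : 2 ^ κ = 2 * 2 ^ (κ - 1) := by
        rw [← pow_succ', Nat.sub_add_cancel h3]
      omega
  set K : ℝ := (16 * n) ^ (2 * c) with hKdef
  have hK1 : 1 ≤ K := one_le_pow₀ (by linarith)
  have hn4 : (1 : ℝ) ≤ (n : ℝ) ^ 4 := one_le_pow₀ hn1
  have hn5 : (1 : ℝ) ≤ (n : ℝ) ^ 5 := one_le_pow₀ hn1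
  set G : ℝ := 2 ^ 20 * (n : ℝ) ^ 4 * K with hG
  have hG1 : 1 ≤ G := by
    rw [hG]
    have h3 : (1 : ℝ) ≤ 2 ^ 20 * (n : ℝ) ^ 4 := by nlinarith
    nlinarith
  have hG0 : 0 < G := by linarith
  set η : ℝ := (X / G) ^ 2 with hη
  have hη0 : 0 < η := by rw [hη]; positivity
  have hvG : X / G ≤ 1 := by
    rw [div_le_one hG0]
    linarith
  have hη1 : η ≤ 1 := pow_le_one₀ (by positivity) hvG
  have hsq : √η = X / G := by rw [hη]; exact Real.sqrt_sq (by positivity)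
  set Λ : ℝ := 12 * X / (2 ^ 20 * (n : ℝ) ^ 4) with hΛ
  have hΛ0 : 0 < Λ := by rw [hΛ]; positivity
  -- the level of the short stages
  have hL : 2 * qmL c κ η ≤ Λ := by
    unfold qmL
    rw [hsq]
    have h1 : (3 : ℝ) ^ (c * (κ + 3)) ≤ K := by
      have h2 : (3 : ℝ) ^ (κ + 3) ≤ (16 * n) ^ 2 := by
        have h3 : (2 : ℝ) ^ κ ≤ 2 * n := by exact_mod_cast hk2
        calc (3 : ℝ) ^ (κ + 3) ≤ 4 ^ (κ + 3) := by gcongr; norm_num
          _ = (8 * 2 ^ κ) ^ 2 := by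
              rw [show (4 : ℝ) = 2 ^ 2 by norm_num, ← pow_mul, mul_pow, ← pow_mul]
              rw [show (8 : ℝ) = 2 ^ 3 by norm_num, ← pow_mul, ← pow_add]
              congr 1; ring
          _ ≤ (8 * (2 * n)) ^ 2 := by gcongr
          _ = (16 * n) ^ 2 := by ring
      calc (3 : ℝ) ^ (c * (κ + 3)) = (3 ^ (κ + 3)) ^ c := by rw [← pow_mul, mul_comm]
        _ ≤ ((16 * n) ^ 2) ^ c := by gcongr
        _ = K := by rw [hKdef, ← pow_mul]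
    calc 2 * (6 * 3 ^ (c * (κ + 3)) * (X / G)) ≤ 2 * (6 * K * (X / G)) := by gcongr
      _ = Λ := by
          rw [hΛ, hG]
          field_simp
          ring
  -- the number of the heavy coordinates
  set B₀ : ℝ := 2 ^ 20 * (n : ℝ) ^ 5 * K / X with hB₀
  have hB1 : 1 ≤ B₀ := by
    rw [hB₀, le_div_iff₀ hX0]
    nlinarith
  have hB0 : 0 < B₀ := by linarith
  set W : ℝ := 2 ^ k * B₀ ^ u with hWdef
  have h2k : (1 : ℝ) ≤ 2 ^ k := one_le_pow₀ (by norm_num)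
  have hBu : 1 ≤ B₀ ^ u := Real.one_le_rpow hB1 (by linarith)
  have hW0 : 0 < W := by positivity
  have hBW : B₀ ^ u ≤ W := by rw [hWdef]; nlinarith
  have hW1 : R * p / η ≤ W := by
    refine le_trans ?_ hBW
    have h1 : B₀ ^ (2 : ℝ) ≤ B₀ ^ u := Real.rpow_le_rpow_of_exponent_le hB1 hu2
    refine le_trans ?_ h1
    rw [Real.rpow_two]
    have h2 : R * p / η = (R * p : ℝ) * G ^ 2 / X ^ 2 := by
      rw [hη]
      field_simp
    have h3 : B₀ ^ 2 = (n : ℝ) ^ 2 * G ^ 2 / X ^ 2 := by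
      rw [hB₀, hG]
      field_simp
    rw [h2, h3]
    have h4 : (R * p : ℝ) ≤ (n : ℝ) ^ 2 := by nlinarith
    gcongr
  have hη2 : (R : ℝ) * p / Λ ≤ B₀ := by
    rw [hΛ, hB₀]
    have h2 : (R : ℝ) * p / (12 * X / (2 ^ 20 * (n : ℝ) ^ 4)) =
        (R * p : ℝ) * (2 ^ 20 * (n : ℝ) ^ 4) / (12 * X) := by
      field_simp
    rw [h2, div_le_div_iff₀ (by positivity) hX0]
    have h3 : (R * p : ℝ) * (2 ^ 20 * (n : ℝ) ^ 4) ≤ 2 ^ 20 * (n : ℝ) ^ 5 * K := by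
      calc (R * p : ℝ) * (2 ^ 20 * (n : ℝ) ^ 4) ≤ n * (2 ^ 20 * (n : ℝ) ^ 4) := by gcongr
        _ = 2 ^ 20 * (n : ℝ) ^ 5 * 1 := by ring
        _ ≤ 2 ^ 20 * (n : ℝ) ^ 5 * K := by gcongr
    have h5 : X ≤ 12 * X := by linarith
    exact mul_le_mul h3 h5 hX0.le (by positivity)
  have hW2 : 2 ^ k * (R * p / Λ) ≤ W := by
    rw [hWdef]
    have h1 : B₀ ≤ B₀ ^ u := by
      have := Real.rpow_le_rpow_of_exponent_le hB1 (by linarith : (1 : ℝ) ≤ u)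
      rwa [Real.rpow_one] at this
    have h2 : (R : ℝ) * p / Λ ≤ B₀ ^ u := hη2.trans h1
    gcongr
  have hW3 : (R * p / Λ) ^ (1 / Real.logb 2 (1 / (1 - lam / 2))) ≤ W := by
    refine le_trans ?_ hBW
    have h1 : 0 ≤ 1 / Real.logb 2 (1 / (1 - lam / 2)) := by
      refine one_div_nonneg.2 (Real.logb_nonneg (by norm_num) ?_)
      rw [le_div_iff₀ (by linarith)]
      linarith
    calc (R * p / Λ : ℝ) ^ (1 / Real.logb 2 (1 / (1 - lam / 2)))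
        ≤ B₀ ^ (1 / Real.logb 2 (1 / (1 - lam / 2))) :=
          Real.rpow_le_rpow (by positivity) hη2 h1
      _ ≤ B₀ ^ u := Real.rpow_le_rpow_of_exponent_le hB1 hu
  -- the sets
  have hRpk : R * p ≤ 2 ^ (κ + 1) := by
    have h1 : R * p ≤ n := by
      rw [hndef, Nat.mul_assoc]
      exact Nat.le_mul_of_pos_left _ hT
    have h2 : 2 ^ κ ≤ 2 ^ (κ + 1) := Nat.pow_le_pow_right (by norm_num) (by omega)
    omega
  have hΛd : Λ ≤ d * Λ := by nlinarith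
  have key : ∀ h, ∃ (J : Finset I) (m : (I → Bool) → ℝ),
      qmGood H R h (2 ^ (κ + 1)) (d * Λ) W J m := by
    intro h
    have hmono : ∀ (J : Finset I) (m : (I → Bool) → ℝ), qmGood H R h (2 ^ (κ + 1)) Λ W J m →
        qmGood H R h (2 ^ (κ + 1)) (d * Λ) W J m := by
      intro J m hg
      refine ⟨hg.1, hg.2.1, hg.2.2.1, fun D P hD hP hPD => ?_⟩
      exact (hg.2.2.2 D P hD hP hPD).trans (mul_le_mul_of_nonneg_right hΛd (ex_nonneg hP))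
    rcases hH h with h1 | h1 | h1
    · exact qm_shallow H hd0.le h1 hη0 hη1 hRpk hL hW1
    · obtain ⟨J, m, hg⟩ := qm_clean H h1 hΛ0 hW0.le hW2 (2 ^ (κ + 1))
      exact ⟨J, m, hmono J m hg⟩
    · obtain ⟨J, m, hg⟩ := qm_noisy H hl0 hl1 h1 hΛ0 hW0.le hW3 (2 ^ (κ + 1))
      exact ⟨J, m, hmono J m hg⟩
  choose J m hJ using key
  refine ⟨J, m, W, hW0, fun h => (hJ h).1, fun h => (hJ h).2.1, fun h => (hJ h).2.2.1, ?_, ?_⟩
  · have h1 : polyBound n c X = n * B₀ := by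
      unfold polyBound
      rw [← hKdef, hB₀]
      ring
    rw [h1, hWdef, Real.mul_rpow (by positivity) hB0.le]
    have h2 : (T : ℝ) ≤ (n : ℝ) ^ u := by
      refine hTn.trans ?_
      have := Real.rpow_le_rpow_of_exponent_le hn1 (by linarith : (1 : ℝ) ≤ u)
      rwa [Real.rpow_one] at this
    calc (T : ℝ) * (2 ^ k * B₀ ^ u) = 2 ^ k * (T * B₀ ^ u) := by ring
      _ ≤ 2 ^ k * ((n : ℝ) ^ u * B₀ ^ u) := by gcongr
  · have hTk : 2 * 0 + T * (2 * (R * p)) ≤ 2 ^ (κ + 1) := by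
      have h1 : T * (2 * (R * p)) = 2 * n := by rw [hndef]; ring
      rw [pow_succ]
      omega
    have hlight := qm_light H R (fun h => (hJ h).2.2.2) T 0 [] (fun _ => φ₀)
      (fun a => Dg.const (I := I) 0 (φ₀ a)) hTk
    simp only [hφ, one_pow, ex_const, mul_one] at hlight
    have hlight' : ex (H.light R m T [] φ₀) ≤ T * (d * Λ) := hlight
    calc 2 ^ 16 * (((T : ℝ) * R) ^ 3 * p ^ 2 * ex (H.light R m T [] φ₀))
        ≤ 2 ^ 16 * ((T * R) ^ 3 * p ^ 2 * (T * (d * Λ))) := by gcongr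
      _ = 2 ^ 16 * ((T * R) ^ 3 * p ^ 2 * T) * Λ * d := by ring
      _ ≤ 2 ^ 16 * (n : ℝ) ^ 4 * Λ * d := by
          have h1 : ((T : ℝ) * R) ^ 3 * p ^ 2 * T ≤ (n : ℝ) ^ 4 := by
            rw [hnr]
            have h2 : (T : ℝ) ≤ (T : ℝ) * (R : ℝ) := by nlinarith
            have h3 : (1 : ℝ) ≤ (p : ℝ) ^ 2 := one_le_pow₀ hpr
            calc ((T : ℝ) * R) ^ 3 * (p : ℝ) ^ 2 * (T : ℝ)
                = ((T : ℝ) * R) ^ 3 * (T : ℝ) * (1 * (p : ℝ) ^ 2) := by ring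
              _ ≤ ((T : ℝ) * R) ^ 3 * ((T : ℝ) * R) * ((p : ℝ) ^ 2 * (p : ℝ) ^ 2) := by
                  gcongr
              _ = ((T : ℝ) * R * p) ^ 4 := by ring
          gcongr
      _ = 12 / 16 * (d * X) := by
          rw [hΛ]
          field_simp
          ring
      _ ≤ Z := by
          rw [hdX]
          linarith

theorem qm_infl (H : MemAlg I A S E p) {φ₀ : Vc S} (hφ : ‖φ₀‖ = 1) {R T c k : ℕ}
    (hn : 1 ≤ T * R * p) {lam : ℝ} (hl0 : 0 < lam) (hl1 : lam ≤ 1) {d : ℝ} (hd : 1 ≤ d)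
    (hH : ∀ h, H.Shallow R c d h ∨ H.Clean k h ∨ H.Noisy R lam h) {v : ℝ} (hv : 0 < v)
    (hvar : variance (H.prob R T [] φ₀) = v) {u : ℝ} (hu2 : 2 ≤ u)
    (hu : 1 / Real.logb 2 (1 / (1 - lam / 2)) ≤ u) :
    ∃ i, 1 / (2 ^ (4 * k) * polyBound (T * R * p) c (v ^ 2 / d) ^ (4 * u + 2)) ≤
      influence (H.prob R T [] φ₀) i := by
  have hd0 : 0 < d := by linarith
  have hv1 : v ≤ 1 := hvar ▸ qm_var_le H hφ R T
  have hX1 : v ^ 2 ≤ 1 := pow_le_one₀ hv.le hv1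
  obtain ⟨J, m, W, hW0, hW, hm0, hm, hTW, hs⟩ := qm_core H hφ hn hl0 hl1 hd hH (Z := v ^ 2)
    (by positivity) hX1 hu2 hu
  have hT : 1 ≤ T := Nat.pos_of_ne_zero fun h => by rw [h] at hn; simp at hn
  obtain ⟨i, hi⟩ := qm_general H hφ R hT J hm0 hm hW0 hW hv hvar hs
  refine ⟨i, le_trans ?_ hi⟩
  have hTr : (1 : ℝ) ≤ T := by exact_mod_cast hT
  have hn1 : (1 : ℝ) ≤ ((T * R * p : ℕ) : ℝ) := by exact_mod_cast hn
  set B : ℝ := polyBound (T * R * p) c (v ^ 2 / d) with hB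
  have hB1 : 2 ^ 20 / v ^ 2 ≤ B := by
    rw [hB]
    unfold polyBound
    have h1 : (1 : ℝ) ≤ ((T * R * p : ℕ) : ℝ) ^ 6 := one_le_pow₀ hn1
    have h2 : (1 : ℝ) ≤ (16 * ((T * R * p : ℕ) : ℝ)) ^ (2 * c) :=
      one_le_pow₀ (by linarith)
    have h3 : v ^ 2 / d ≤ v ^ 2 := div_le_self (by positivity) hd
    have h4 : (2 : ℝ) ^ 20 ≤ 2 ^ 20 * ((T * R * p : ℕ) : ℝ) ^ 6 *
        (16 * ((T * R * p : ℕ) : ℝ)) ^ (2 * c) := by nlinarith
    gcongr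
  have hB0 : 0 < B := lt_of_lt_of_le (by positivity) hB1
  have hTW0 : 0 < T * W := by positivity
  have h3 : (T * W) ^ 4 ≤ 2 ^ (4 * k) * B ^ (4 * u) := by
    calc (T * W) ^ 4 ≤ (2 ^ k * B ^ u) ^ 4 := by gcongr
      _ = 2 ^ (4 * k) * B ^ (4 * u) := by
          rw [mul_pow, ← pow_mul, mul_comm k 4, ← Real.rpow_natCast (B ^ u) 4,
            ← Real.rpow_mul hB0.le]
          norm_num
          ring_nf
  have h4 : B ^ (4 * u + 2) = B ^ (4 * u) * B ^ 2 := by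
    rw [Real.rpow_add hB0, Real.rpow_two]
  rw [h4, div_le_div_iff₀ (by positivity) (by positivity)]
  have h5 : 2 ^ 10 ≤ v ^ 4 * B ^ 2 := by
    have h6 : (2 ^ 20 / v ^ 2) ^ 2 ≤ B ^ 2 := by gcongr
    have h7 : v ^ 4 * (2 ^ 20 / v ^ 2) ^ 2 = 2 ^ 40 := by
      field_simp
    calc (2 : ℝ) ^ 10 ≤ 2 ^ 40 := by norm_num
      _ = v ^ 4 * (2 ^ 20 / v ^ 2) ^ 2 := h7.symm
      _ ≤ v ^ 4 * B ^ 2 := by gcongr
  calc 1 * (2 ^ 10 * (T * W) ^ 4) ≤ 2 ^ 10 * (2 ^ (4 * k) * B ^ (4 * u)) := by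
        rw [one_mul]; gcongr
    _ ≤ (v ^ 4 * B ^ 2) * (2 ^ (4 * k) * B ^ (4 * u)) := by gcongr
    _ = v ^ 4 * (2 ^ (4 * k) * (B ^ (4 * u) * B ^ 2)) := by ring

theorem qm_sim (H : MemAlg I A S E p) {φ₀ : Vc S} (hφ : ‖φ₀‖ = 1) {R T c k : ℕ}
    (hn : 1 ≤ T * R * p) {lam : ℝ} (hl0 : 0 < lam) (hl1 : lam ≤ 1) {d : ℝ} (hd : 1 ≤ d)
    (hH : ∀ h, H.Shallow R c d h ∨ H.Clean k h ∨ H.Noisy R lam h) {ε δ : ℝ} (hε : 0 < ε)
    (hε1 : ε ≤ 1) (hδ : 0 < δ) (hδ1 : δ ≤ 1) {u : ℝ} (hu2 : 2 ≤ u)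
    (hu : 1 / Real.logb 2 (1 / (1 - lam / 2)) ≤ u) :
    ∃ t : DTree I ℝ,
      (t.depth : ℝ) ≤ 2 ^ (2 * k) * polyBound (T * R * p) c (ε ^ 4 * δ ^ 2 / d) ^ (2 * u + 1) ∧
      pr {x | ε < |H.prob R T [] φ₀ x - t.eval x|} ≤ δ := by
  have hd0 : 0 < d := by linarith
  have hX1 : ε ^ 4 * δ ^ 2 ≤ 1 := by
    have a : ε ^ 4 ≤ 1 := pow_le_one₀ hε.le hε1
    have b : δ ^ 2 ≤ 1 := pow_le_one₀ hδ.le hδ1
    have c : 0 ≤ δ ^ 2 := by positivity
    nlinarith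
  obtain ⟨J, m, W, hW0, hW, hm0, hm, hTW, hs⟩ := qm_core H hφ hn hl0 hl1 hd hH
    (Z := ε ^ 4 * δ ^ 2) (by positivity) hX1 hu2 hu
  have hT : 1 ≤ T := Nat.pos_of_ne_zero fun h => by rw [h] at hn; simp at hn
  have hl : 0 ≤ ex (H.light R m T [] φ₀) := ex_nonneg fun x => light_nonneg H R hm0 T [] φ₀ x
  have hs' : 2 ^ 14 * ((T * R : ℝ) ^ 3 * p ^ 2 * ex (H.light R m T [] φ₀)) ≤ ε ^ 4 * δ ^ 2 := by
    refine le_trans ?_ hs
    have h3 : 0 ≤ (T * R : ℝ) ^ 3 * p ^ 2 * ex (H.light R m T [] φ₀) := by positivity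
    nlinarith
  obtain ⟨t, ht1, ht2⟩ := qm_sim_general H hφ R hT J hm0 hm hW0 hW hε hδ hs'
  refine ⟨t, ht1.trans ?_, ht2⟩
  have hn1 : (1 : ℝ) ≤ ((T * R * p : ℕ) : ℝ) := by exact_mod_cast hn
  set B : ℝ := polyBound (T * R * p) c (ε ^ 4 * δ ^ 2 / d) with hB
  have hB1 : 2 ^ 20 / (ε ^ 4 * δ ^ 2) ≤ B := by
    rw [hB]
    unfold polyBound
    have h1 : (1 : ℝ) ≤ ((T * R * p : ℕ) : ℝ) ^ 6 := one_le_pow₀ hn1
    have h2 : (1 : ℝ) ≤ (16 * ((T * R * p : ℕ) : ℝ)) ^ (2 * c) :=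
      one_le_pow₀ (by linarith)
    have h3 : ε ^ 4 * δ ^ 2 / d ≤ ε ^ 4 * δ ^ 2 := div_le_self (by positivity) hd
    have h4 : (2 : ℝ) ^ 20 ≤ 2 ^ 20 * ((T * R * p : ℕ) : ℝ) ^ 6 *
        (16 * ((T * R * p : ℕ) : ℝ)) ^ (2 * c) := by nlinarith
    gcongr
  have hB0 : 0 < B := lt_of_lt_of_le (by positivity) hB1
  have h3 : (T * W) ^ 2 ≤ 2 ^ (2 * k) * B ^ (2 * u) := by
    have hTW0 : 0 ≤ T * W := by positivity
    calc (T * W) ^ 2 ≤ (2 ^ k * B ^ u) ^ 2 := by gcongr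
      _ = 2 ^ (2 * k) * B ^ (2 * u) := by
          rw [mul_pow, ← pow_mul, mul_comm k 2, ← Real.rpow_natCast (B ^ u) 2,
            ← Real.rpow_mul hB0.le]
          norm_num
          ring_nf
  have h4 : B ^ (2 * u + 1) = B ^ (2 * u) * B := by
    rw [Real.rpow_add hB0, Real.rpow_one]
  have h5 : 8 / (ε ^ 2 * δ ^ 2) ≤ B := by
    refine le_trans ?_ hB1
    rw [div_le_div_iff₀ (by positivity) (by positivity)]
    have h6 : ε ^ 4 ≤ ε ^ 2 := pow_le_pow_of_le_one hε.le hε1 (by norm_num)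
    have h7 : 8 * (ε ^ 4 * δ ^ 2) ≤ 8 * (ε ^ 2 * δ ^ 2) := by gcongr
    have h8 : 0 ≤ ε ^ 2 * δ ^ 2 := by positivity
    linarith
  calc 8 * (T * W) ^ 2 / (ε ^ 2 * δ ^ 2) = (T * W) ^ 2 * (8 / (ε ^ 2 * δ ^ 2)) := by ring
    _ ≤ (2 ^ (2 * k) * B ^ (2 * u)) * B := by gcongr
    _ = 2 ^ (2 * k) * B ^ (2 * u + 1) := by rw [h4]; ring

end Pool.Agent.QMem
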