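import Pool.Agent.Lib_helper64.HYB.MR

/-!
# Families of functions of low degree under a tilted law
-/

set_option autoImplicit false
set_option linter.unusedSectionVars false

open Finset

namespace Pool.Agent.QMem

open Pool.Agent.Lib_helper8.QAA
open Pool.Agent.HYB

variable {I : Type} [Fintype I] [DecidableEq I]

/-- the set of the heavy coordinates -/
noncomputable def qmJ (f : I → (I → Bool) → ℝ) (η : ℝ) : Finset I :=
  Finset.univ.filter fun i => η < ex (f i)

/-- the level of the light magnitudes -/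
noncomputable def qmL (c k : ℕ) (η : ℝ) : ℝ := 6 * 3 ^ (c * (k + 3)) * √η

lemma qmJ_card {f : I → (I → Bool) → ℝ} (hf0 : ∀ i x, 0 ≤ f i x) {K η : ℝ} (hη : 0 < η)
    (hfs : ∀ x, ∑ i, f i x ≤ K) : ((qmJ f η).card : ℝ) ≤ K / η := by
  rw [le_div_iff₀ hη]
  calc ((qmJ f η).card : ℝ) * η = ∑ _i ∈ qmJ f η, η := by
        rw [Finset.sum_const, nsmul_eq_mul]
    _ ≤ ∑ i ∈ qmJ f η, ex (f i) := by
        refine Finset.sum_le_sum fun i hi => ?_
        unfold qmJ at hi
        exact (Finset.mem_filter.1 hi).2.le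
    _ ≤ ∑ i, ex (f i) :=
        Finset.sum_le_sum_of_subset_of_nonneg (Finset.subset_univ _)
          fun i _ _ => ex_nonneg fun x => hf0 i x
    _ = ex (fun x => ∑ i, f i x) := (ex_sum _ _).symm
    _ ≤ ex (fun _ : I → Bool => K) := ex_mono hfs
    _ = K := ex_const _

lemma qm_stage {f : I → (I → Bool) → ℝ} (hf0 : ∀ i x, 0 ≤ f i x) {c : ℕ}
    (hfD : ∀ i, Dg (2 * c) (fun x => ((f i x : ℝ) : ℂ))) {K : ℕ} (hfs : ∀ x, ∑ i, f i x ≤ K)
    {η : ℝ} (hη : 0 < η) (hη1 : η ≤ 1) {k D : ℕ} (hD : D ≤ 2 ^ (k + 1)) (hK : K ≤ 2 ^ (k + 1))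
    {P : (I → Bool) → ℝ} (hP : ∀ x, 0 ≤ P x) (hPD : Dg D (fun x => (P x : ℂ))) :
    ex (fun x => P x * ⨆ i : {i // i ∉ qmJ f η}, f i x) ≤ 2 * qmL c k η * ex P := by
  classical
  set q : ℕ := 2 ^ (k + 1) with hq
  have hq2 : 2 ≤ q := by
    rw [hq, pow_succ]
    have : 1 ≤ 2 ^ k := Nat.one_le_two_pow
    omega
  obtain ⟨n, hn⟩ : ∃ n, q = n + 1 := ⟨q - 1, by omega⟩
  set l : ℝ := qmL c k η with hl
  have hsq : 0 < √η := Real.sqrt_pos.2 hη
  have hl0 : 0 < l := by rw [hl]; unfold qmL; positivity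
  have hP0 : 0 ≤ ex P := ex_nonneg hP
  set B : Finset I := Finset.univ.filter fun i => i ∉ qmJ f η with hB
  -- pointwise
  have h1 : ∀ x, (⨆ i : {i // i ∉ qmJ f η}, f i x) ≤ l + ∑ i ∈ B, f i x ^ q / l ^ n := by
    intro x
    have hnn : 0 ≤ l + ∑ i ∈ B, f i x ^ q / l ^ n := by
      have : 0 ≤ ∑ i ∈ B, f i x ^ q / l ^ n := Finset.sum_nonneg fun i _ =>
        div_nonneg (pow_nonneg (hf0 i x) _) (by positivity)
      linarith
    refine Real.iSup_le (fun i => ?_) hnn
    have h2 := mr_young (hf0 i x) hl0 n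
    rw [← hn] at h2
    have h3 : f i x ^ q / l ^ n ≤ ∑ i ∈ B, f i x ^ q / l ^ n :=
      Finset.single_le_sum (f := fun i => f i x ^ q / l ^ n)
        (fun i _ => div_nonneg (pow_nonneg (hf0 i x) _) (by positivity))
        (by rw [hB]; exact Finset.mem_filter.2 ⟨Finset.mem_univ _, i.2⟩)
    linarith
  have h2 : ex (fun x => P x * ⨆ i : {i // i ∉ qmJ f η}, f i x) ≤
      l * ex P + ∑ i ∈ B, ex (fun x => P x * f i x ^ q) / l ^ n := by
    have e1 : l * ex P + ∑ i ∈ B, ex (fun x => P x * f i x ^ q) / l ^ n =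
        ex (fun x => P x * (l + ∑ i ∈ B, f i x ^ q / l ^ n)) := by
      have e2 : (fun x => P x * (l + ∑ i ∈ B, f i x ^ q / l ^ n)) =
          fun x => l * P x + ∑ i ∈ B, (1 / l ^ n) * (P x * f i x ^ q) := by
        funext x
        rw [mul_add, Finset.mul_sum]
        congr 1
        · ring
        · refine Finset.sum_congr rfl fun i _ => ?_
          ring
      rw [e2, ex_add, ex_const_mul, ex_sum]
      congr 1
      refine Finset.sum_congr rfl fun i _ => ?_
      rw [ex_const_mul]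
      ring
    rw [e1]
    exact ex_mono fun x => mul_le_mul_of_nonneg_left (h1 x) (hP x)
  -- the moments
  have h3 : ∀ i ∈ B, ex (fun x => P x * f i x ^ q) ≤
      3 ^ D * 3 ^ (c * (k + 3) * q) * ex P * (η ^ n * ex (f i)) := by
    intro i hi
    have hi2 : ex (f i) ≤ η := by
      rw [hB, Finset.mem_filter] at hi
      have h4 := hi.2
      unfold qmJ at h4
      rw [Finset.mem_filter] at h4
      push Not at h4
      exact h4 (Finset.mem_univ _)
    have hm0 : 0 ≤ ex (f i) := ex_nonneg fun x => hf0 i x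
    refine (mr_moment (k := k) hP (hf0 i) hPD (hfD i)).trans ?_
    rw [← hq]
    have h5 : ex (f i) ^ q ≤ η ^ n * ex (f i) := by
      rw [hn, pow_succ]
      gcongr
    gcongr
  have h4 : ∑ i ∈ B, ex (fun x => P x * f i x ^ q) / l ^ n ≤ l * ex P := by
    rw [← Finset.sum_div, div_le_iff₀ (by positivity)]
    have h5 : ∑ i ∈ B, ex (fun x => P x * f i x ^ q) ≤
        3 ^ D * 3 ^ (c * (k + 3) * q) * ex P * (η ^ n * K) := by
      refine (Finset.sum_le_sum h3).trans ?_
      rw [← Finset.mul_sum, ← Finset.mul_sum]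
      have h6 : ∑ i ∈ B, ex (f i) ≤ K := by
        calc ∑ i ∈ B, ex (f i) ≤ ∑ i, ex (f i) :=
              Finset.sum_le_sum_of_subset_of_nonneg (Finset.subset_univ _)
                fun i _ _ => ex_nonneg fun x => hf0 i x
          _ = ex (fun x => ∑ i, f i x) := (ex_sum _ _).symm
          _ ≤ ex (fun _ : I → Bool => (K : ℝ)) := ex_mono hfs
          _ = K := ex_const _
      gcongr
    refine h5.trans ?_
    have e1 : l * ex P * l ^ n = l ^ q * ex P := by rw [hn]; ring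
    rw [e1]
    have e2 : l ^ q = 6 ^ q * 3 ^ (c * (k + 3) * q) * √η ^ q := by
      rw [hl]
      unfold qmL
      rw [mul_pow, mul_pow, ← pow_mul]
    rw [e2]
    have h7 : (3 : ℝ) ^ D ≤ 3 ^ q := pow_le_pow_right₀ (by norm_num) hD
    have h8 : (K : ℝ) ≤ 2 ^ q := by
      have h9 : K ≤ 2 ^ q := hK.trans (Nat.lt_two_pow_self).le
      exact_mod_cast h9
    have h10 : η ^ n ≤ √η ^ q := by
      have h11 : η ^ n = √η ^ (2 * n) := by rw [pow_mul, Real.sq_sqrt hη.le]
      rw [h11]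
      exact pow_le_pow_of_le_one hsq.le (Real.sqrt_le_one.2 hη1) (by omega)
    have h12 : (6 : ℝ) ^ q = 3 ^ q * 2 ^ q := by rw [← mul_pow]; norm_num
    calc 3 ^ D * 3 ^ (c * (k + 3) * q) * ex P * (η ^ n * K)
        ≤ 3 ^ q * 3 ^ (c * (k + 3) * q) * ex P * (√η ^ q * 2 ^ q) := by gcongr
      _ = 6 ^ q * 3 ^ (c * (k + 3) * q) * √η ^ q * ex P := by rw [h12]; ring
  linarith

end Pool.Agent.QMem
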