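import Pool.Agent.Lib_helper64.HYB.K4
import Pool.Agent.Lib_helper30.QM.OM
import Pool.Agent.Lib_helper30.QM.Ex

/-!
# The three kinds of calls
-/

set_option autoImplicit false
set_option linter.unusedSectionVars false

open Finset

namespace Pool.Agent.QMem

open Pool.Agent.Lib_helper8.QAA
open Pool.Agent.HYB

variable {I : Type} [Fintype I] [DecidableEq I]
variable {A S E : Type} [Fintype A] [Fintype S] [Fintype E] {p : ℕ}

/-- The call which follows the record `h`, with the memory in a mixed state, as a stage of an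
algorithm without memory. -/
noncomputable def MemAlg.aux (H : MemAlg I A S E p) (h : List A) {Y : Type} [Fintype Y]
    (w : Y → ℝ) (ψ : Y → Vc S) (hw : ∀ y, 0 ≤ w y) (hw1 : ∑ y, w y = 1)
    (hψ : ∀ y, ‖ψ y‖ = 1) : Hybrid I (A × S) (E × Y) p where
  stage _ z := H.alg h z.1 (H.load h z.1 (ψ z.2)) (by rw [H.norm_load, hψ])
  weight _ z := H.weight h z.1 * w z.2
  accept _ := 0
  weight_nonneg _ z := mul_nonneg (H.weight_nonneg h z.1) (hw z.2)
  sum_weight _ := by
    rw [Fintype.sum_prod_type]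
    simp_rw [← Finset.mul_sum, hw1, mul_one]
    exact H.sum_weight h
  accept_nonneg _ := le_rfl
  accept_le_one _ := zero_le_one
  norm_init _ z := by
    show ‖H.load h z.1 (ψ z.2)‖ = 1
    rw [H.norm_load, hψ]
  norm_step _ z s φ := H.norm_step h z.1 s φ
  norm_phase _ z a x := H.norm_phase h z.1 a x

lemma mag_pm (H : MemAlg I A S E p) (R : ℕ) (h : List A) (i : I) (φ : Vc S) (x : I → Bool) :
    H.mag R h i φ x = ∑ e, H.weight h e * ∑ s ∈ Finset.range R,
      pm ((H.al h e).look i) (H.state h e φ s x) := by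
  simp only [mag_eq, al_state]

section aux

variable (H : MemAlg I A S E p) (h : List A) {Y : Type} [Fintype Y]
    (w : Y → ℝ) (ψ : Y → Vc S) (hw : ∀ y, 0 ≤ w y) (hw1 : ∑ y, w y = 1)
    (hψ : ∀ y, ‖ψ y‖ = 1)

lemma aux_state (g : List (A × S)) (z : E × Y) (s : ℕ) (x : I → Bool) :
    ((H.aux h w ψ hw hw1 hψ).stage g z).state s x = H.state h z.1 (ψ z.2) s x :=
  alg_state H h z.1 (ψ z.2) _ x s

lemma aux_mag (R : ℕ) (g : List (A × S)) (i : I) (x : I → Bool) :
    (H.aux h w ψ hw hw1 hψ).mag R g i x = ∑ y, w y * H.mag R h i (ψ y) x := by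
  unfold Hybrid.mag
  simp only [aux_state]
  rw [Fintype.sum_prod_type, Finset.sum_comm]
  refine Finset.sum_congr rfl fun y _ => ?_
  rw [mag_pm, Finset.mul_sum]
  refine Finset.sum_congr rfl fun e _ => ?_
  show H.weight h e * w y * _ = _
  have h1 : ((H.aux h w ψ hw hw1 hψ).stage g (e, y)).look i = (H.al h e).look i := rfl
  rw [h1]
  ring

end aux

lemma mag_zero (H : MemAlg I A S E p) (R : ℕ) (h : List A) (i : I) (x : I → Bool) :
    H.mag R h i 0 x = 0 := by
  have e1 := mag_smul H R h i 0 0 x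
  rw [zero_smul, norm_zero, zero_pow (by norm_num), zero_mul] at e1
  exact e1

lemma mag_of_unit (H : MemAlg I A S E p) (R : ℕ) (h : List A) (i : I) (x : I → Bool) {C : ℝ}
    (hu : ∀ φ : Vc S, ‖φ‖ = 1 → H.mag R h i φ x ≤ C) (φ : Vc S) :
    H.mag R h i φ x ≤ C * ‖φ‖ ^ 2 := by
  by_cases hφ : φ = 0
  · rw [hφ, mag_zero, norm_zero]
    simp
  · have hn : 0 < ‖φ‖ := norm_pos_iff.2 hφ
    set θ : Vc S := ((‖φ‖⁻¹ : ℝ) : ℂ) • φ with hθ
    have h1 : ‖θ‖ = 1 := by
      rw [hθ, norm_smul, Complex.norm_real, Real.norm_of_nonneg (by positivity)]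
      field_simp
    have h2 : φ = ((‖φ‖ : ℝ) : ℂ) • θ := by
      rw [hθ, smul_smul, ← Complex.ofReal_mul, mul_inv_cancel₀ hn.ne', Complex.ofReal_one,
        one_smul]
    have h3 : H.mag R h i φ x = ‖φ‖ ^ 2 * H.mag R h i θ x := by
      conv_lhs => rw [h2]
      rw [mag_smul, Complex.norm_real, norm_norm]
    rw [h3, mul_comm]
    exact mul_le_mul_of_nonneg_right (hu θ h1) (by positivity)

lemma mag_unit (H : MemAlg I A S E p) (R : ℕ) (h : List A) (i : I) (x : I → Bool) {φ : Vc S}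
    (hφ : ‖φ‖ = 1) (g : List (A × S)) :
    H.mag R h i φ x = (H.aux h (fun _ : Unit => 1) (fun _ => φ) (fun _ => zero_le_one)
      (by simp) (fun _ => hφ)).mag R g i x := by
  rw [aux_mag]
  simp

/-- A call which is light outside of a small set. -/
def qmGood (H : MemAlg I A S E p) (R : ℕ) (h : List A) (q : ℕ) (Λ W : ℝ) (J : Finset I)
    (m : (I → Bool) → ℝ) : Prop :=
  (J.card : ℝ) ≤ W ∧ (∀ x, 0 ≤ m x) ∧ (∀ x, ∀ i ∉ J, ∀ φ, H.mag R h i φ x ≤ m x * ‖φ‖ ^ 2) ∧
    qmLight m q Λ

/-! ### Shallow calls -/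

lemma early_state (H : MemAlg I A S E p) {R : ℕ} {h : List A} {P : ℕ → ℕ}
    (hP : ∀ e φ x s a, s < R → H.state h e φ s x a ≠ 0 → (H.query h e a).card ≤ P s) (e : E)
    (ψ : Vc S) (s : ℕ) (hs : s < R) :
    ∀ a, Dg (∑ s' ∈ Finset.range s, P s') (fun x => H.state h e ψ s x a) := by
  classical
  induction s with
  | zero =>
    intro a
    exact Dg.const (I := I) _ (H.load h e ψ a)
  | succ s ih =>
    have ih' := ih (by omega)
    have h1 : DgV (∑ s' ∈ Finset.range (s + 1), P s') (fun x =>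
        (WithLp.toLp 2 fun a => H.phase h e a x * H.state h e ψ s x a : Vc (A × S))) := by
      intro a
      by_cases h0 : ∀ x, H.state h e ψ s x a = 0
      · refine (congrArg (Dg _) ?_).mpr (Dg.const (I := I) _ 0)
        funext x
        show H.phase h e a x * H.state h e ψ s x a = 0
        rw [h0, mul_zero]
      · push Not at h0
        obtain ⟨x₀, hx₀⟩ := h0
        have h2 : Dg (P s) (fun x => H.phase h e a x) :=
          Dg.of_junta (H.query h e a) (hP e ψ x₀ s a (by omega) hx₀) (H.phase_congr h e a)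
        have h3 := h2.mul (ih' a)
        rw [Finset.sum_range_succ, add_comm]
        exact h3
    exact DgV.clm (H.step h e s) h1

lemma early_mag (H : MemAlg I A S E p) {R last c : ℕ} {h : List A} (hH : H.Early R last c h)
    (i : I) (ψ : Vc S) : Dg (2 * c) (fun x => ((H.mag R h i ψ x : ℝ) : ℂ)) := by
  classical
  obtain ⟨P, hP1, hP2, hP3⟩ := hH
  have h1 : Dg (2 * c) (fun x => ∑ e, (H.weight h e : ℂ) * ∑ s ∈ Finset.range R, ∑ a,
      (((if i ∈ H.query h e a then ‖H.state h e ψ s x a‖ ^ 2 else 0 : ℝ)) : ℂ)) := by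
    refine Dg.sum _ fun e _ => Dg.const_mul _ (Dg.sum _ fun s hs => Dg.sum _ fun a _ => ?_)
    have hsR := Finset.mem_range.1 hs
    by_cases hi : i ∈ H.query h e a
    · by_cases hsl : last < s
      · have h0 : ∀ x, H.state h e ψ s x a = 0 := by
          intro x
          by_contra hne
          have h2 := hP1 e ψ x s a hsR hne
          rw [hP2 s hsl, Nat.le_zero, Finset.card_eq_zero] at h2
          rw [h2] at hi
          exact Finset.notMem_empty i hi
        refine (congrArg (Dg _) ?_).mpr (Dg.const (I := I) _ 0)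
        funext x
        rw [h0]
        simp
      · simp only [if_pos hi]
        refine Dg.mono ?_ (early_state H hP1 e ψ s hsR a).norm_sq
        have h2 : ∑ s' ∈ Finset.range s, P s' ≤ ∑ s' ∈ Finset.range last, P s' :=
          Finset.sum_le_sum_of_subset (Finset.range_mono (not_lt.1 hsl))
        omega
    · simp only [if_neg hi]
      exact Dg.const _ _
  refine (congrArg (Dg _) ?_).mpr h1
  funext x
  unfold MemAlg.mag
  push_cast
  rfl

theorem qm_dominated (H : MemAlg I A S E p) {R last c : ℕ} {d : ℝ} (hd : 0 ≤ d) {h : List A}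
    (h1 : H.Early R last c h) (hH : H.Dominated R d h) {η : ℝ} (hη : 0 < η) (hη1 : η ≤ 1)
    {k : ℕ} (hRp : R * p ≤ 2 ^ (k + 1)) {Λ W : ℝ} (hΛ : 2 * qmL c k η ≤ Λ)
    (hW : R * p / η ≤ W) :
    ∃ (J : Finset I) (m : (I → Bool) → ℝ), qmGood H R h (2 ^ (k + 1)) (d * Λ) W J m := by
  obtain ⟨Y, _, w, ψ, hw, hw1, hψ, hmag⟩ := hH
  set f : I → (I → Bool) → ℝ := fun i x => ∑ y, w y * H.mag R h i (ψ y) x with hf
  have hf0 : ∀ i x, 0 ≤ f i x := fun i x =>
    Finset.sum_nonneg fun y _ => mul_nonneg (hw y) (mag_nonneg H R h i (ψ y) x)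
  have hfD : ∀ i, Dg (2 * c) (fun x => ((f i x : ℝ) : ℂ)) := by
    intro i
    have h2 : Dg (2 * c) (fun x => ∑ y, (w y : ℂ) * ((H.mag R h i (ψ y) x : ℝ) : ℂ)) :=
      Dg.sum _ fun y _ => Dg.const_mul _ (early_mag H h1 i (ψ y))
    refine (congrArg (Dg _) ?_).mpr h2
    funext x
    rw [hf]
    push_cast
    rfl
  have hfs : ∀ x, ∑ i, f i x ≤ ((R * p : ℕ) : ℝ) := by
    intro x
    rw [hf]
    dsimp only
    rw [Finset.sum_comm]
    calc ∑ y, ∑ i, w y * H.mag R h i (ψ y) x ≤ ∑ y, w y * ((R * p : ℕ) : ℝ) := by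
          refine Finset.sum_le_sum fun y _ => ?_
          rw [← Finset.mul_sum]
          refine mul_le_mul_of_nonneg_left ?_ (hw y)
          have h2 := os_mag_sum H R h (ψ y) x
          rw [hψ, one_pow, mul_one] at h2
          push_cast
          exact h2
      _ = ((R * p : ℕ) : ℝ) := by rw [← Finset.sum_mul, hw1, one_mul]
  have hsup : ∀ x, 0 ≤ ⨆ i : {i // i ∉ qmJ f η}, f i x := fun x =>
    Real.iSup_nonneg fun i => hf0 i x
  refine ⟨qmJ f η, fun x => d * ⨆ i : {i // i ∉ qmJ f η}, f i x, ?_,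
    fun x => mul_nonneg hd (hsup x), fun x i hi φ => ?_, fun D P hD hP hPD => ?_⟩
  · refine (qmJ_card hf0 hη hfs).trans ?_
    push_cast
    exact hW
  · refine (hmag i φ x).trans ?_
    have h3 : f i x ≤ ⨆ i : {i // i ∉ qmJ f η}, f i x :=
      le_ciSup (f := fun i : {i // i ∉ qmJ f η} => f i x) (Set.finite_range _).bddAbove
        ⟨i, hi⟩
    calc d * ‖φ‖ ^ 2 * ∑ y, w y * H.mag R h i (ψ y) x
        ≤ d * ‖φ‖ ^ 2 * ⨆ i : {i // i ∉ qmJ f η}, f i x :=
          mul_le_mul_of_nonneg_left h3 (by positivity)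
      _ = _ := by ring
  · have h4 := qm_stage hf0 hfD hfs hη hη1 hD hRp hP hPD
    have e1 : (fun x => P x * (d * ⨆ i : {i // i ∉ qmJ f η}, f i x)) =
        fun x => d * (P x * ⨆ i : {i // i ∉ qmJ f η}, f i x) := by
      funext x
      ring
    rw [e1, ex_const_mul, mul_assoc]
    refine mul_le_mul_of_nonneg_left (h4.trans ?_) hd
    exact mul_le_mul_of_nonneg_right hΛ (ex_nonneg hP)

theorem qm_shallow (H : MemAlg I A S E p) {R c : ℕ} {d : ℝ} (hd : 0 ≤ d) {h : List A}
    (hH : H.Shallow R c d h) {η : ℝ} (hη : 0 < η) (hη1 : η ≤ 1) {k : ℕ}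
    (hRp : R * p ≤ 2 ^ (k + 1)) {Λ W : ℝ} (hΛ : 2 * qmL c k η ≤ Λ) (hW : R * p / η ≤ W) :
    ∃ (J : Finset I) (m : (I → Bool) → ℝ), qmGood H R h (2 ^ (k + 1)) (d * Λ) W J m := by
  obtain ⟨last, h1, ⟨M, N, _, _, mem, hM, hc⟩ | h2⟩ := hH
  · by_cases hS : Nonempty S
    · exact qm_dominated H hd h1 (dominated_mono H (dominated_of_control H h1 mem hc) hM) hη
        hη1 hRp hΛ hW
    · rw [not_nonempty_iff] at hS
      have hΛ0 : 0 ≤ Λ := le_trans (by unfold qmL; positivity) hΛ
      refine ⟨∅, fun _ => 0, by simpa using le_trans (by positivity) hW, fun _ => le_rfl,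
        fun x i _ φ => ?_, qm_of_le _ fun _ => mul_nonneg hd hΛ0⟩
      have h3 : φ = 0 := Subsingleton.elim _ _
      rw [h3, mag_zero]
      simp
  · exact qm_dominated H hd h1 h2 hη hη1 hRp hΛ hW

/-! ### Calls with clean qubits -/

section clean

variable {B C : Type} [Fintype B] [Fintype C]

/-- the part of a vector with the index `c` of the idle part -/
noncomputable def sl (part : A × S ≃ B × C) (c : C) (Φ : Vc (A × S)) : Vc B :=
  WithLp.toLp 2 fun b => Φ (part.symm (b, c))

lemma sl_norm (part : A × S ≃ B × C) (Φ : Vc (A × S)) : ∑ c, ‖sl part c Φ‖ ^ 2 = ‖Φ‖ ^ 2 := by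
  rw [norm_sq_eq, ← Equiv.sum_comp part.symm, Fintype.sum_prod_type, Finset.sum_comm]
  refine Finset.sum_congr rfl fun c _ => ?_
  rw [norm_sq_eq]
  rfl

/-- the active part of the call as an algorithm -/
lemma clean_alg (H : MemAlg I A S E p) {h : List A} (part : A × S ≃ B × C)
    {query : B → Finset I} {phase : B → (I → Bool) → ℂ} {step : ℕ → (Vc B →L[ℂ] Vc B)}
    (hq : ∀ e b c, H.query h e (part.symm (b, c)) = query b ∧
      H.phase h e (part.symm (b, c)) = phase b)
    (hst : ∀ e s φ b c, H.step h e s φ (part.symm (b, c)) =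
      step s (WithLp.toLp 2 fun b' => φ (part.symm (b', c))) b) (e₀ : E) (c₀ : C) :
    ∃ Q : Algorithm I B p, Q.query = query ∧ Q.phase = phase ∧ Q.step = step := by
  classical
  have a1 : ∀ b, (query b).card ≤ p := by
    intro b
    rw [← (hq e₀ b c₀).1]
    exact H.card_query_le h e₀ _
  have a2 : ∀ b x, ‖phase b x‖ ≤ 1 := by
    intro b x
    rw [← (hq e₀ b c₀).2]
    exact (H.norm_phase h e₀ _ x).le
  have a3 : ∀ b x y, (∀ i ∈ query b, x i = y i) → phase b x = phase b y := by
    intro b x y hxy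
    rw [← (hq e₀ b c₀).2]
    refine H.phase_congr h e₀ _ x y ?_
    rw [(hq e₀ b c₀).1]
    exact hxy
  have a4 : ∀ s u, ‖step s u‖ ≤ ‖u‖ := by
    intro s u
    set Φ : Vc (A × S) := WithLp.toLp 2 fun a => if (part a).2 = c₀ then u (part a).1 else 0
      with hΦ
    have h1 : ∀ c, sl part c Φ = if c = c₀ then u else 0 := by
      intro c
      ext b
      show (if (part (part.symm (b, c))).2 = c₀ then u (part (part.symm (b, c))).1 else 0) = _
      rw [Equiv.apply_symm_apply]
      dsimp only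
      split_ifs <;> rfl
    have h2 : ‖Φ‖ ^ 2 = ‖u‖ ^ 2 := by
      rw [← sl_norm part, Finset.sum_eq_single c₀]
      · rw [h1, if_pos rfl]
      · intro c _ hc
        rw [h1, if_neg hc]
        simp
      · intro hc
        exact absurd (Finset.mem_univ c₀) hc
    have h3 : sl part c₀ (H.step h e₀ s Φ) = step s u := by
      ext b
      have h4 : (WithLp.toLp 2 fun b' => Φ (part.symm (b', c₀)) : Vc B) = u := by
        have := h1 c₀
        rw [if_pos rfl] at this
        exact this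
      show H.step h e₀ s Φ (part.symm (b, c₀)) = _
      rw [hst, h4]
    have h5 : ‖step s u‖ ^ 2 ≤ ‖u‖ ^ 2 := by
      rw [← h3, ← h2, ← H.norm_step h e₀ s Φ, ← sl_norm part (H.step h e₀ s Φ)]
      exact Finset.single_le_sum (f := fun c => ‖sl part c (H.step h e₀ s Φ)‖ ^ 2)
        (fun c _ => by positivity) (Finset.mem_univ c₀)
    exact (sq_le_sq₀ (norm_nonneg _) (norm_nonneg _)).1 h5
  exact ⟨⟨query, phase, step, 0, ∅, a1, a2, a3, a4, by simp⟩, rfl, rfl, rfl⟩

lemma clean_state (H : MemAlg I A S E p) {h : List A} (part : A × S ≃ B × C)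
    {Q : Algorithm I B p}
    (hq : ∀ e b c, H.query h e (part.symm (b, c)) = Q.query b ∧
      H.phase h e (part.symm (b, c)) = Q.phase b)
    (hst : ∀ e s φ b c, H.step h e s φ (part.symm (b, c)) =
      Q.step s (WithLp.toLp 2 fun b' => φ (part.symm (b', c))) b) (e : E) (φ : Vc S)
    (x : I → Bool) (c : C) :
    ∀ s : ℕ, sl part c (H.state h e φ s x) = k1_V Q x s (sl part c (H.load h e φ))
  | 0 => rfl
  | s + 1 => by
    have ih := clean_state H part hq hst e φ x c s
    ext b
    show H.step h e s (WithLp.toLp 2 fun a => H.phase h e a x * H.state h e φ s x a)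
      (part.symm (b, c)) = Q.step s (Q.oracleL x (k1_V Q x s (sl part c (H.load h e φ)))) b
    have h1 : (WithLp.toLp 2 fun b' => (WithLp.toLp 2 fun a => H.phase h e a x *
        H.state h e φ s x a : Vc (A × S)) (part.symm (b', c)) : Vc B) =
        Q.oracleL x (sl part c (H.state h e φ s x)) := by
      ext b'
      show H.phase h e (part.symm (b', c)) x * H.state h e φ s x (part.symm (b', c)) = _
      rw [(hq e b' c).2, oracleL_apply]
      rfl
    rw [hst, ← ih, h1]

lemma clean_mag (H : MemAlg I A S E p) {k : ℕ} {h : List A} (part : A × S ≃ B × C)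
    {Q : Algorithm I B p}
    (hq : ∀ e b c, H.query h e (part.symm (b, c)) = Q.query b ∧
      H.phase h e (part.symm (b, c)) = Q.phase b)
    (hst : ∀ e s φ b c, H.step h e s φ (part.symm (b, c)) =
      Q.step s (WithLp.toLp 2 fun b' => φ (part.symm (b', c))) b)
    (hin : ∀ (φ : Vc S) (ψ : Vc B), ∑ e, H.weight h e * ∑ c,
      ‖inner ℂ ψ (WithLp.toLp 2 fun b => H.load h e φ (part.symm (b, c)))‖ ^ 2 ≤
        2 ^ k / Fintype.card B * ‖ψ‖ ^ 2 * ‖φ‖ ^ 2) (R : ℕ) {φ : Vc S} (hφ : ‖φ‖ = 1) (i : I)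
    (x : I → Bool) :
    H.mag R h i φ x ≤ R * (2 ^ k * (Q.look i).card / Fintype.card B) := by
  classical
  have hrow : ∀ (s : ℕ) (b : B), ∑ e, H.weight h e * ∑ c,
      ‖H.state h e φ s x (part.symm (b, c))‖ ^ 2 ≤ 2 ^ k / Fintype.card B := by
    intro s b
    obtain ⟨y, hy, hy2⟩ := k1_row (k1_V Q x s) (k1_V_norm _ x s) b
    have h1 : ∑ e, H.weight h e * ∑ c, ‖H.state h e φ s x (part.symm (b, c))‖ ^ 2 =
        ∑ e, H.weight h e * ∑ c,
          ‖inner ℂ y (WithLp.toLp 2 fun b => H.load h e φ (part.symm (b, c)))‖ ^ 2 := by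
      refine sum_congr rfl fun e _ => ?_
      congr 1
      refine sum_congr rfl fun c _ => ?_
      have h2 : H.state h e φ s x (part.symm (b, c)) =
          k1_V Q x s (sl part c (H.load h e φ)) b := by
        rw [← clean_state H part hq hst e φ x c s]
        rfl
      rw [h2, hy2]
      rfl
    rw [h1]
    refine (hin φ y).trans ?_
    rw [hφ, one_pow, mul_one]
    have h2 : ‖y‖ ^ 2 ≤ 1 := pow_le_one₀ (norm_nonneg _) hy
    have h3 : (0 : ℝ) ≤ 2 ^ k / Fintype.card B := by positivity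
    nlinarith
  unfold MemAlg.mag
  calc ∑ e, H.weight h e * ∑ s ∈ range R, ∑ a, (if i ∈ H.query h e a then
        ‖H.state h e φ s x a‖ ^ 2 else 0)
      = ∑ s ∈ range R, ∑ b ∈ Q.look i,
          ∑ e, H.weight h e * ∑ c, ‖H.state h e φ s x (part.symm (b, c))‖ ^ 2 := by
        have h1 : ∀ e ∈ (univ : Finset E), H.weight h e * ∑ s ∈ range R, ∑ a,
            (if i ∈ H.query h e a then ‖H.state h e φ s x a‖ ^ 2 else 0) =
            ∑ s ∈ range R, ∑ b ∈ Q.look i,
              H.weight h e * ∑ c, ‖H.state h e φ s x (part.symm (b, c))‖ ^ 2 := by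
          intro e _
          rw [mul_sum]
          refine sum_congr rfl fun s _ => ?_
          rw [← mul_sum]
          congr 1
          rw [← Equiv.sum_comp part.symm, Fintype.sum_prod_type]
          unfold Algorithm.look
          rw [Finset.sum_filter]
          refine sum_congr rfl fun b _ => ?_
          simp only [(hq e b _).1]
          split_ifs with hb
          · rfl
          · simp
        rw [sum_congr rfl h1, sum_comm]
        exact sum_congr rfl fun s _ => sum_comm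
    _ ≤ ∑ s ∈ range R, ∑ b ∈ Q.look i, (2 ^ k / Fintype.card B : ℝ) :=
        sum_le_sum fun s _ => sum_le_sum fun b _ => hrow s b
    _ = R * (2 ^ k * (Q.look i).card / Fintype.card B) := by
        simp only [sum_const, card_range, nsmul_eq_mul]
        ring

end clean

theorem qm_clean (H : MemAlg I A S E p) {R k : ℕ} {h : List A} (hH : H.Clean k h) {η : ℝ}
    (hη : 0 < η) {W : ℝ} (hW0 : 0 ≤ W) (hW : 2 ^ k * (R * p / η) ≤ W) (q : ℕ) :
    ∃ (J : Finset I) (m : (I → Bool) → ℝ), qmGood H R h q η W J m := by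
  have hE : Nonempty E := by
    by_contra hne
    rw [not_nonempty_iff] at hne
    have := H.sum_weight h
    simp at this
  obtain ⟨e₀⟩ := hE
  by_cases hA : Nonempty (A × S)
  swap
  · rw [not_nonempty_iff] at hA
    refine ⟨∅, fun _ => η, by simpa using hW0, fun _ => hη.le, fun x i _ φ => ?_,
      qm_of_le q fun _ => le_rfl⟩
    refine mag_of_unit H R h i x (fun φ hφ => ?_) φ
    exfalso
    have h1 := H.norm_load h e₀ φ
    have h2 : H.load h e₀ φ = 0 := Subsingleton.elim _ _
    rw [h2, norm_zero, hφ] at h1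
    exact zero_ne_one h1
  obtain ⟨B, C, _, _, part, query, phase, step, hq, hst, hin⟩ := hH
  obtain ⟨a₀⟩ := hA
  have : Nonempty B := ⟨(part a₀).1⟩
  obtain ⟨Q, hQ1, hQ2, hQ3⟩ := clean_alg H part hq hst e₀ (part a₀).2
  subst hQ1 hQ2 hQ3
  have hBpos : (0 : ℝ) < Fintype.card B := by exact_mod_cast Fintype.card_pos
  set J : Finset I := Finset.univ.filter fun i =>
    η < R * (2 ^ k * (Q.look i).card / Fintype.card B) with hJ
  refine ⟨J, fun _ => η, le_trans ?_ hW, fun _ => hη.le, fun x i hi φ => ?_,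
    qm_of_le q fun _ => le_rfl⟩
  · have h1 : (J.card : ℝ) * η ≤
        ∑ i ∈ J, (R : ℝ) * (2 ^ k * (Q.look i).card / Fintype.card B) := by
      rw [← nsmul_eq_mul, ← Finset.sum_const]
      refine Finset.sum_le_sum fun i hi => ?_
      rw [hJ, Finset.mem_filter] at hi
      exact hi.2.le
    have h2 : ∑ i ∈ J, (R : ℝ) * (2 ^ k * (Q.look i).card / Fintype.card B) ≤
        ∑ i, (R : ℝ) * (2 ^ k * (Q.look i).card / Fintype.card B) :=
      Finset.sum_le_sum_of_subset_of_nonneg (Finset.subset_univ _) fun _ _ _ => by positivity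
    have h3 : ∑ i, (R : ℝ) * (2 ^ k * (Q.look i).card / Fintype.card B) =
        2 ^ k * R / Fintype.card B * ∑ i, ((Q.look i).card : ℝ) := by
      rw [Finset.mul_sum]
      exact Finset.sum_congr rfl fun i _ => by ring
    have h4 := sim_sum_look Q
    have h5 : 2 ^ k * (R : ℝ) / Fintype.card B * ∑ i, ((Q.look i).card : ℝ) ≤
        2 ^ k * R / Fintype.card B * (p * Fintype.card B) :=
      mul_le_mul_of_nonneg_left h4 (by positivity)
    have h6 : 2 ^ k * (R : ℝ) / Fintype.card B * (p * Fintype.card B) =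
        2 ^ k * (R * p) := by
      field_simp
    have h7 : (J.card : ℝ) * η ≤ 2 ^ k * (R * p) := by linarith
    rw [← mul_div_assoc, le_div_iff₀ hη]
    exact h7
  · refine mag_of_unit H R h i x (fun φ hφ => ?_) φ
    refine (clean_mag H part hq hst hin R hφ i x).trans ?_
    rw [hJ, Finset.mem_filter] at hi
    push Not at hi
    exact hi (Finset.mem_univ i)

/-! ### Noisy calls -/

theorem qm_noisy (H : MemAlg I A S E p) {R : ℕ} {lam : ℝ} {h : List A} (h0 : 0 < lam)
    (h1 : lam ≤ 1) (hH : H.Noisy R lam h) {η : ℝ} (hη : 0 < η) {W : ℝ} (hW0 : 0 ≤ W)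
    (hW : (R * p / η) ^ (1 / Real.logb 2 (1 / (1 - lam / 2))) ≤ W) (q : ℕ) :
    ∃ (J : Finset I) (m : (I → Bool) → ℝ), qmGood H R h q η W J m := by
  by_cases hall : ∀ φ : Vc S, ‖φ‖ = 1 → ∀ x i, H.mag R h i φ x ≤ η
  · exact ⟨∅, fun _ => η, by simpa using hW0, fun _ => hη.le,
      fun x i _ φ => mag_of_unit H R h i x (fun φ hφ => hall φ hφ x i) φ,
      qm_of_le q fun _ => le_rfl⟩
  push Not at hall
  obtain ⟨φ, hφ, x, i, hxi⟩ := hall
  set G := H.aux h (fun _ : Unit => 1) (fun _ => φ) (fun _ => zero_le_one) (by simp)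
    (fun _ => hφ) with hG
  have hGn : G.Noisy R lam [] := by
    obtain ⟨l, B, instB, addr, reg, hq, hs⟩ := hH
    refine ⟨l, B, instB, addr, reg, fun z a i hi => hq z.1 a i hi, fun s hsR => ?_⟩
    obtain ⟨Y, v, y, ψ, hF, hst⟩ := hs s hsR
    refine ⟨Y, fun z => v z.1, fun z => y z.1, fun y' x => ψ y' φ x, fun F => ?_,
      fun z x a => ?_⟩
    · have h2 := hF F
      rw [Fintype.sum_prod_type, Fintype.sum_prod_type]
      show ∑ e, ∑ _y : Unit, H.weight h e * 1 * F (v e) (y e) =
        ∑ e, ∑ _y : Unit, H.weight h e * 1 * ∑ u, (∏ j, depol lam (u j)) * F u (y e)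
      simpa using h2
    · rw [hG, aux_state]
      exact hst z.1 φ x a
  obtain ⟨l, hl, hm⟩ := k2_mag G h0.le h1 hGn
  rw [mag_unit H R h i x hφ [], ← hG] at hxi
  set b : ℝ := 1 - lam / 2 with hb
  have hb0 : 0 < b := by rw [hb]; linarith
  have hb1 : b < 1 := by rw [hb]; linarith
  set c : ℝ := Real.logb 2 (1 / b) with hc
  have hc0 : 0 < c := Real.logb_pos (by norm_num) (by rw [lt_div_iff₀ hb0]; linarith)
  have hlt : η < R * p * b ^ l := lt_of_lt_of_le hxi (hm x i)
  refine ⟨Finset.univ, fun _ => η, le_trans ?_ hW, fun _ => hη.le, fun x i hi => ?_,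
    qm_of_le q fun _ => le_rfl⟩
  · have h2 : ((Finset.univ : Finset I).card : ℝ) ≤ 2 ^ l := by
      rw [Finset.card_univ]
      exact_mod_cast hl
    refine h2.trans ?_
    have hbc : b = (2 : ℝ) ^ (-c) := by
      rw [hc, Real.rpow_neg (by norm_num), Real.rpow_logb (by norm_num) (by norm_num)
        (by positivity)]
      field_simp
    have h3 : (1 / b) ^ l ≤ R * p / η := by
      rw [le_div_iff₀ hη, one_div, inv_pow, inv_mul_le_iff₀ (by positivity)]
      linarith
    have h4 : (2 : ℝ) ^ l = ((1 / b) ^ l) ^ (1 / c) := by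
      have h5 : (1 / b) ^ l = (2 : ℝ) ^ (c * l) := by
        rw [hbc, one_div, ← Real.rpow_neg (by norm_num), neg_neg, ← Real.rpow_natCast,
          ← Real.rpow_mul (by norm_num)]
      have h6 : c * l * (1 / c) = (l : ℝ) := by field_simp
      rw [h5, ← Real.rpow_mul (by norm_num), h6, Real.rpow_natCast]
    rw [h4]
    exact Real.rpow_le_rpow (by positivity) h3 (by positivity)
  · exact absurd (Finset.mem_univ i) hi

end Pool.Agent.QMem
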