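import Pool.Agent.Lib_helper64.HYB.CP
import Pool.Agent.Lib_helper30.QM.Defs

/-!
# Operator valued tame families and their composition
-/

set_option autoImplicit false
set_option linter.unusedSectionVars false

open Finset

namespace Pool.Agent.QMem

open Pool.Agent.Lib_helper8.QAA
open Pool.Agent.HYB

variable {I : Type} [Fintype I] [DecidableEq I]

/-- The space of vectors. -/
abbrev Vc (S : Type) := EuclideanSpace ℂ S

variable {S Ω : Type} [Fintype S] [Fintype Ω]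

/-- The derivative in direction `i` (without the sign): half of the change under the flip. -/
noncomputable def odv (Ψ : (I → Bool) → (Vc S →ₗ[ℂ] Vc Ω)) (i : I) (x : I → Bool) :
    Vc S →ₗ[ℂ] Vc Ω :=
  (1 / 2 : ℂ) • (Ψ x - Ψ (Lib_helper8.QAA.flip i x))

theorem odv_apply (Ψ : (I → Bool) → (Vc S →ₗ[ℂ] Vc Ω)) (i : I) (x : I → Bool) (φ : Vc S) :
    odv Ψ i x φ = (1 / 2 : ℂ) • (Ψ x φ - Ψ (Lib_helper8.QAA.flip i x) φ) := rfl

/-- Operator valued tame families. -/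
structure OTame (Ψ : (I → Bool) → (Vc S →ₗ[ℂ] Vc Ω)) (Q : Ω → Finset I)
    (M : (I → Bool) → Vc S → ℝ) (κ b : ℝ) : Prop where
  norm_eq : ∀ x φ, ‖Ψ x φ‖ = ‖φ‖
  M_nonneg : ∀ x φ, 0 ≤ M x φ
  M_smul : ∀ x (c : ℂ) φ, M x (c • φ) = ‖c‖ ^ 2 * M x φ
  κ_nonneg : 0 ≤ κ
  b_nonneg : 0 ≤ b
  deriv_le : ∀ x φ, ∑ i, ‖odv Ψ i x φ‖ ^ 2 ≤ b ^ 2 * ‖φ‖ ^ 2
  split : ∃ L : I → (I → Bool) → (Vc S →ₗ[ℂ] Vc Ω),
    (∀ i x φ τ, i ∉ Q τ → L i x φ τ = odv Ψ i x φ τ) ∧
    (∀ x (v : I → Vc S), ‖∑ i, L i x (v i)‖ ^ 2 ≤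
      κ * ∑ i, M (Lib_helper8.QAA.flip i x) (v i)) ∧
    ∀ x φ, ∑ i, ‖odv Ψ i (Lib_helper8.QAA.flip i x) φ - L i (Lib_helper8.QAA.flip i x) φ‖ ^ 2 ≤
      b ^ 2 * ‖φ‖ ^ 2

/-- A unit vector gives a tame family. -/
theorem OTame.tame {Ψ : (I → Bool) → (Vc S →ₗ[ℂ] Vc Ω)} {Q : Ω → Finset I}
    {M : (I → Bool) → Vc S → ℝ} {κ b : ℝ} (h : OTame Ψ Q M κ b) {φ : Vc S} (hφ : ‖φ‖ = 1) :
    Tame (fun x => Ψ x φ) Q (fun x => M x φ) κ b := by
  obtain ⟨L, h1, h2, h3⟩ := h.split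
  refine ⟨fun x => by rw [h.norm_eq, hφ], fun x => h.M_nonneg x φ, h.κ_nonneg, h.b_nonneg,
    fun x => ?_, fun i x => L i x φ, fun i x τ hτ => h1 i x φ τ hτ, fun x v => ?_, fun x => ?_⟩
  · have := h.deriv_le x φ
    rw [hφ, one_pow, mul_one] at this
    exact this
  · have := h2 x (fun i => v i • φ)
    simp only [map_smul, h.M_smul] at this
    exact this
  · have := h3 x φ
    rw [hφ, one_pow, mul_one] at this
    exact this

/-- the part of a vector with the first index `b` -/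
noncomputable def slice {B : Type} [Fintype B] (b : B) : Vc (B × S) →ₗ[ℂ] Vc S where
  toFun w := WithLp.toLp 2 fun s => w (b, s)
  map_add' _ _ := rfl
  map_smul' _ _ := rfl

theorem slice_apply {B : Type} [Fintype B] (b : B) (w : Vc (B × S)) (s : S) :
    slice b w s = w (b, s) := rfl

theorem slice_norm {B : Type} [Fintype B] (w : Vc (B × S)) :
    ∑ b, ‖slice b w‖ ^ 2 = ‖w‖ ^ 2 := by
  rw [EuclideanSpace.norm_sq_eq, Fintype.sum_prod_type]
  refine sum_congr rfl fun b _ => ?_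
  rw [EuclideanSpace.norm_sq_eq]
  rfl

/-- put vectors together -/
noncomputable def join {B : Type} [Fintype B] (f : B → Vc Ω) : Vc (B × Ω) :=
  WithLp.toLp 2 fun z => f z.1 z.2

theorem join_apply {B : Type} [Fintype B] (f : B → Vc Ω) (z : B × Ω) :
    join f z = f z.1 z.2 := rfl

theorem join_norm {B : Type} [Fintype B] (f : B → Vc Ω) : ‖join f‖ ^ 2 = ∑ b, ‖f b‖ ^ 2 := by
  rw [EuclideanSpace.norm_sq_eq, Fintype.sum_prod_type]
  refine sum_congr rfl fun b _ => ?_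
  rw [EuclideanSpace.norm_sq_eq]
  rfl

/-- The composition: first `α x`, then for every outcome `b` the map `Ψ b x`. -/
noncomputable def ocomp {B : Type} [Fintype B] (α : Vc S →ₗ[ℂ] Vc (B × S))
    (Ψ : B → (Vc S →ₗ[ℂ] Vc Ω)) : Vc S →ₗ[ℂ] Vc (B × Ω) where
  toFun φ := join fun b => Ψ b (slice b (α φ))
  map_add' φ φ' := by
    ext z
    simp only [join_apply, map_add, PiLp.add_apply]
  map_smul' c φ := by
    ext z
    simp only [join_apply, map_smul, PiLp.smul_apply, RingHom.id_apply]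

theorem ocomp_apply {B : Type} [Fintype B] (α : Vc S →ₗ[ℂ] Vc (B × S))
    (Ψ : B → (Vc S →ₗ[ℂ] Vc Ω)) (φ : Vc S) :
    ocomp α Ψ φ = join fun b => Ψ b (slice b (α φ)) := rfl

theorem ocomp_dv1 {B : Type} [Fintype B] (α : (I → Bool) → (Vc S →ₗ[ℂ] Vc (B × S)))
    (Ψ : B → (I → Bool) → (Vc S →ₗ[ℂ] Vc Ω)) (i : I) (x : I → Bool) (φ : Vc S) :
    odv (fun x => ocomp (α x) fun b => Ψ b x) i x φ =
      (join fun b => Ψ b x (slice b (odv α i x φ))) +
      join fun b => odv (Ψ b) i x (slice b (α (Lib_helper8.QAA.flip i x) φ)) := by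
  ext z
  simp only [odv_apply, ocomp_apply, join_apply, PiLp.add_apply, PiLp.smul_apply, PiLp.sub_apply,
    map_smul, map_sub, smul_eq_mul]
  ring

theorem ocomp_dv2 {B : Type} [Fintype B] (α : (I → Bool) → (Vc S →ₗ[ℂ] Vc (B × S)))
    (Ψ : B → (I → Bool) → (Vc S →ₗ[ℂ] Vc Ω)) (i : I) (x : I → Bool) (φ : Vc S) :
    odv (fun x => ocomp (α x) fun b => Ψ b x) i x φ =
      (join fun b => Ψ b (Lib_helper8.QAA.flip i x) (slice b (odv α i x φ))) +
      join fun b => odv (Ψ b) i x (slice b (α x φ)) := by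
  ext z
  simp only [odv_apply, ocomp_apply, join_apply, PiLp.add_apply, PiLp.smul_apply, PiLp.sub_apply,
    map_smul, map_sub, smul_eq_mul]
  ring

/-- the two parts of the sum over the directions -/
theorem ocomp_two {B : Type} [Fintype B] (Φ : I → B → (Vc S →ₗ[ℂ] Vc Ω))
    (hΦ : ∀ i b φ, ‖Φ i b φ‖ = ‖φ‖) (D : I → Vc (B × S)) (w : Vc (B × S))
    (R : I → B → (Vc S →ₗ[ℂ] Vc Ω)) {b₁ b₂ n : ℝ} (h1 : 0 ≤ b₁) (h2 : 0 ≤ b₂) (hn : 0 ≤ n)
    (hw : ‖w‖ = n) (hD : ∑ i, ‖D i‖ ^ 2 ≤ b₁ ^ 2 * n ^ 2)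
    (hR : ∀ b φ, ∑ i, ‖R i b φ‖ ^ 2 ≤ b₂ ^ 2 * ‖φ‖ ^ 2) :
    ∑ i, ‖(join fun b => Φ i b (slice b (D i))) + join fun b => R i b (slice b w)‖ ^ 2 ≤
      (b₁ + b₂) ^ 2 * n ^ 2 := by
  have key := cp_mink (fun i => join fun b => Φ i b (slice b (D i)))
    (fun i => join fun b => R i b (slice b w)) (b₁ := b₁ * n) (b₂ := b₂ * n)
    (mul_nonneg h1 hn) (mul_nonneg h2 hn) ?_ ?_
  · refine key.trans (le_of_eq ?_)
    ring
  · refine le_trans (le_of_eq (sum_congr rfl fun i _ => ?_)) (hD.trans (le_of_eq (by ring)))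
    rw [join_norm, ← slice_norm]
    exact sum_congr rfl fun b _ => by rw [hΦ]
  · have e1 : ∑ i, ‖join fun b => R i b (slice b w)‖ ^ 2 =
        ∑ b, ∑ i, ‖R i b (slice b w)‖ ^ 2 := by
      simp only [join_norm]
      exact sum_comm
    rw [e1]
    calc ∑ b, ∑ i, ‖R i b (slice b w)‖ ^ 2 ≤ ∑ b : B, b₂ ^ 2 * ‖slice b w‖ ^ 2 :=
          sum_le_sum fun b _ => hR b _
      _ = (b₂ * n) ^ 2 := by rw [← mul_sum, slice_norm, hw]; ring

theorem otame_comp {B : Type} [Fintype B] {α : (I → Bool) → (Vc S →ₗ[ℂ] Vc (B × S))}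
    {Qα : B → Finset I} {Mα : (I → Bool) → Vc S → ℝ} {κ₁ b₁ : ℝ}
    (hα : OTame α (fun z => Qα z.1) Mα κ₁ b₁)
    {Ψ : B → (I → Bool) → (Vc S →ₗ[ℂ] Vc Ω)} {Q : B → Ω → Finset I}
    {M : B → (I → Bool) → Vc S → ℝ} {κ₂ b₂ : ℝ} (hκ₂ : 0 ≤ κ₂) (hb₂ : 0 ≤ b₂)
    (hΨ : ∀ b, OTame (Ψ b) (Q b) (M b) κ₂ b₂) :
    OTame (fun x => ocomp (α x) fun b => Ψ b x) (fun z => Qα z.1 ∪ Q z.1 z.2)
      (fun x φ => Mα x φ + ∑ b, M b x (slice b (α x φ))) (κ₁ + κ₂) (b₁ + b₂) := by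
  obtain ⟨Lα, hL1, hL2, hL3⟩ := hα.split
  choose L hK1 hK2 hK3 using fun b => (hΨ b).split
  refine ⟨fun x φ => ?_, fun x φ => ?_, fun x c φ => ?_, add_nonneg hα.κ_nonneg hκ₂,
    add_nonneg hα.b_nonneg hb₂, fun x φ => ?_, ?_⟩
  · -- the norm
    have h1 : ‖ocomp (α x) (fun b => Ψ b x) φ‖ ^ 2 = ‖φ‖ ^ 2 := by
      rw [ocomp_apply, join_norm, ← hα.norm_eq x φ, ← slice_norm]
      exact sum_congr rfl fun b _ => by rw [(hΨ b).norm_eq]
    exact (sq_eq_sq₀ (norm_nonneg _) (norm_nonneg _)).1 h1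
  · exact add_nonneg (hα.M_nonneg x φ) (sum_nonneg fun b _ => (hΨ b).M_nonneg x _)
  · simp only [map_smul, hα.M_smul, (hΨ _).M_smul]
    rw [mul_add, mul_sum]
  · simp only [ocomp_dv2]
    exact ocomp_two (fun i b => Ψ b (Lib_helper8.QAA.flip i x)) (fun i b φ => (hΨ b).norm_eq _ _)
      (fun i => odv α i x φ) (α x φ) (fun i b => odv (Ψ b) i x) hα.b_nonneg hb₂ (norm_nonneg _)
      (hα.norm_eq x φ) (hα.deriv_le x φ) (fun b φ => (hΨ b).deriv_le x φ)
  · refine ⟨fun i x => ocomp (Lα i x) (fun b => Ψ b x) +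
      ocomp (α (Lib_helper8.QAA.flip i x)) (fun b => L b i x), fun i x φ z hz => ?_, fun x v => ?_,
      fun x φ => ?_⟩
    · rw [notMem_union] at hz
      rw [ocomp_dv1, LinearMap.add_apply, PiLp.add_apply, PiLp.add_apply, ocomp_apply,
        ocomp_apply, join_apply, join_apply, join_apply, join_apply]
      have e1 : slice z.1 (Lα i x φ) = slice z.1 (odv α i x φ) := by
        ext s
        rw [slice_apply, slice_apply]
        exact hL1 i x φ (z.1, s) hz.1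
      rw [e1, hK1 z.1 i x _ z.2 hz.2]
    · -- the light clause
      set A : ℝ := ∑ i, Mα (Lib_helper8.QAA.flip i x) (v i) with hA
      set C : ℝ := ∑ i, ∑ b, M b (Lib_helper8.QAA.flip i x)
        (slice b (α (Lib_helper8.QAA.flip i x) (v i))) with hC
      set U : Vc (B × Ω) := join fun b => Ψ b x (slice b (∑ i, Lα i x (v i))) with hU
      set V : Vc (B × Ω) :=
        join fun b => ∑ i, L b i x (slice b (α (Lib_helper8.QAA.flip i x) (v i))) with hV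
      have e1 : ∑ i, (ocomp (Lα i x) (fun b => Ψ b x) +
          ocomp (α (Lib_helper8.QAA.flip i x)) (fun b => L b i x)) (v i) = U + V := by
        ext z
        rw [WithLp.ofLp_sum, Finset.sum_apply, PiLp.add_apply, hU, hV, join_apply, join_apply,
          map_sum, map_sum, WithLp.ofLp_sum, Finset.sum_apply, WithLp.ofLp_sum, Finset.sum_apply,
          ← sum_add_distrib]
        refine sum_congr rfl fun i _ => ?_
        rw [LinearMap.add_apply, PiLp.add_apply, ocomp_apply, ocomp_apply, join_apply, join_apply]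
      have hUn : ‖U‖ ^ 2 ≤ κ₁ * A := by
        rw [hU, join_norm]
        refine le_trans (le_of_eq ?_) (hL2 x v)
        rw [← slice_norm]
        exact sum_congr rfl fun b _ => by rw [(hΨ b).norm_eq]
      have hVn : ‖V‖ ^ 2 ≤ κ₂ * C := by
        rw [hV, join_norm]
        calc ∑ b : B, ‖∑ i, L b i x (slice b (α (Lib_helper8.QAA.flip i x) (v i)))‖ ^ 2
            ≤ ∑ b : B, κ₂ * ∑ i, M b (Lib_helper8.QAA.flip i x)
                (slice b (α (Lib_helper8.QAA.flip i x) (v i))) :=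
              sum_le_sum fun b _ => hK2 b x _
          _ = κ₂ * C := by
              rw [hC, ← mul_sum, sum_comm]
      have hA0 : 0 ≤ A := sum_nonneg fun i _ => hα.M_nonneg _ _
      have hC0 : 0 ≤ C := sum_nonneg fun i _ => sum_nonneg fun b _ => (hΨ b).M_nonneg _ _
      have hκ₁ := hα.κ_nonneg
      have e2 : ∑ i, (Mα (Lib_helper8.QAA.flip i x) (v i) + ∑ b, M b (Lib_helper8.QAA.flip i x)
          (slice b (α (Lib_helper8.QAA.flip i x) (v i)))) = A + C := by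
        rw [hA, hC, ← sum_add_distrib]
      rw [e1, e2]
      have e3 : ‖U + V‖ ^ 2 ≤ (‖U‖ + ‖V‖) ^ 2 :=
        pow_le_pow_left₀ (norm_nonneg _) (norm_add_le _ _) 2
      refine e3.trans ?_
      have e4 : (2 * (‖U‖ * ‖V‖)) ^ 2 ≤ (κ₁ * C + κ₂ * A) ^ 2 := by
        have h1 : (‖U‖ * ‖V‖) ^ 2 ≤ (κ₁ * A) * (κ₂ * C) := by
          rw [mul_pow]
          exact mul_le_mul hUn hVn (by positivity) (by positivity)
        have h2 : 4 * ((κ₁ * A) * (κ₂ * C)) ≤ (κ₁ * C + κ₂ * A) ^ 2 := by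
          nlinarith [sq_nonneg (κ₁ * C - κ₂ * A)]
        calc (2 * (‖U‖ * ‖V‖)) ^ 2 = 4 * (‖U‖ * ‖V‖) ^ 2 := by ring
          _ ≤ 4 * ((κ₁ * A) * (κ₂ * C)) := by linarith
          _ ≤ _ := h2
      have e5 : 2 * (‖U‖ * ‖V‖) ≤ κ₁ * C + κ₂ * A :=
        (abs_le_of_sq_le_sq' e4 (by positivity)).2
      have e6 : (‖U‖ + ‖V‖) ^ 2 = ‖U‖ ^ 2 + 2 * (‖U‖ * ‖V‖) + ‖V‖ ^ 2 := by ring
      have e7 : (κ₁ + κ₂) * (A + C) = κ₁ * A + (κ₁ * C + κ₂ * A) + κ₂ * C := by ring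
      rw [e6, e7]
      linarith
    · -- the heavy clause
      have e1 : ∀ i, odv (fun x => ocomp (α x) fun b => Ψ b x) i (Lib_helper8.QAA.flip i x) φ -
          (ocomp (Lα i (Lib_helper8.QAA.flip i x)) (fun b => Ψ b (Lib_helper8.QAA.flip i x)) +
            ocomp (α (Lib_helper8.QAA.flip i (Lib_helper8.QAA.flip i x)))
              (fun b => L b i (Lib_helper8.QAA.flip i x))) φ =
          (join fun b => Ψ b (Lib_helper8.QAA.flip i x)
            (slice b (odv α i (Lib_helper8.QAA.flip i x) φ - Lα i (Lib_helper8.QAA.flip i x) φ))) +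
          join fun b => (odv (Ψ b) i (Lib_helper8.QAA.flip i x) -
            L b i (Lib_helper8.QAA.flip i x)) (slice b (α x φ)) := by
        intro i
        rw [ocomp_dv1, cp_flip]
        ext z
        simp only [PiLp.add_apply, PiLp.sub_apply, LinearMap.add_apply, LinearMap.sub_apply,
          ocomp_apply, join_apply, map_sub]
        ring
      simp only [e1]
      exact ocomp_two (fun i b => Ψ b (Lib_helper8.QAA.flip i x)) (fun i b φ => (hΨ b).norm_eq _ _)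
        (fun i => odv α i (Lib_helper8.QAA.flip i x) φ - Lα i (Lib_helper8.QAA.flip i x) φ)
        (α x φ) (fun i b => odv (Ψ b) i (Lib_helper8.QAA.flip i x) -
          L b i (Lib_helper8.QAA.flip i x)) hα.b_nonneg hb₂ (norm_nonneg _)
        (hα.norm_eq x φ) (hL3 x φ) (fun b φ => hK3 b x φ)

end Pool.Agent.QMem
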