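import Pool.Agent.Lib_helper64.HYB.K1
import Pool.Agent.Lib_helper30.QM.OT

/-!
# One call is tame
-/

set_option autoImplicit false
set_option linter.unusedSectionVars false

open Finset

namespace Pool.Agent.QMem

open Pool.Agent.Lib_helper8.QAA
open Pool.Agent.HYB

variable {I : Type} [Fintype I] [DecidableEq I]
variable {A S E : Type} [Fintype A] [Fintype S] [Fintype E] {p : ℕ}

/-! ### Operator versions of the hybrid argument -/

section operator

variable {W : Type} [Fintype W]

/-- the change caused by the query in round `s`, for the initial vector `u` -/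
noncomputable def ow (Q : Algorithm I W p) (s : ℕ) (i : I) (x : I → Bool) (u : Vc W) : Vc W :=
  Q.oracleL x (k1_V Q (Lib_helper8.QAA.flip i x) s u) -
    Q.oracleL (Lib_helper8.QAA.flip i x) (k1_V Q (Lib_helper8.QAA.flip i x) s u)

lemma ow_apply (Q : Algorithm I W p) (s : ℕ) (i : I) (x : I → Bool) (u : Vc W) (a : W) :
    ow Q s i x u a = (Q.phase a x - Q.phase a (Lib_helper8.QAA.flip i x)) *
      k1_V Q (Lib_helper8.QAA.flip i x) s u a := by
  unfold ow
  rw [oracleL_apply, oracleL_apply]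
  simp only [Algorithm.oracle, PiLp.sub_apply]
  ring

lemma ow_zero (Q : Algorithm I W p) (s : ℕ) (i : I) (x : I → Bool) (u : Vc W) {a : W}
    (ha : a ∉ Q.look i) : ow Q s i x u a = 0 := by
  have h2 : Q.phase a x = Q.phase a (Lib_helper8.QAA.flip i x) := by
    apply Q.phase_congr
    intro j hj
    rw [flip_apply_of_ne]
    rintro rfl
    exact ha (by simp [Algorithm.look, hj])
  rw [ow_apply, h2, sub_self, zero_mul]

lemma ow_norm (Q : Algorithm I W p) (s : ℕ) (i : I) (x : I → Bool) (u : Vc W) :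
    ‖ow Q s i x u‖ ^ 2 ≤ 4 * pm (Q.look i) (k1_V Q (Lib_helper8.QAA.flip i x) s u) := by
  rw [norm_sq_eq, ← Finset.sum_subset (Finset.subset_univ (Q.look i))]
  · unfold pm
    rw [Finset.mul_sum]
    refine Finset.sum_le_sum fun a _ => ?_
    rw [ow_apply, norm_mul, mul_pow]
    have h2 : ‖Q.phase a x - Q.phase a (Lib_helper8.QAA.flip i x)‖ ≤ 2 := by
      refine (norm_sub_le _ _).trans ?_
      linarith [Q.norm_phase_le a x, Q.norm_phase_le a (Lib_helper8.QAA.flip i x)]
    have h3 : ‖Q.phase a x - Q.phase a (Lib_helper8.QAA.flip i x)‖ ^ 2 ≤ 4 := by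
      have := norm_nonneg (Q.phase a x - Q.phase a (Lib_helper8.QAA.flip i x))
      nlinarith
    exact mul_le_mul_of_nonneg_right h3 (by positivity)
  · intro a _ ha
    rw [ow_zero Q s i x u ha]
    simp

/-- Telescoping of the change of the propagator. -/
lemma ow_sub (Q : Algorithm I W p) (x : I → Bool) (t : ℕ) :
    ∃ B : ℕ → (EuclideanSpace ℂ W →L[ℂ] EuclideanSpace ℂ W), (∀ s φ, ‖B s φ‖ ≤ ‖φ‖) ∧
      ∀ i u, k1_V Q x t u - k1_V Q (Lib_helper8.QAA.flip i x) t u =
        ∑ s ∈ Finset.range t, B s (ow Q s i x u) := by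
  induction t with
  | zero =>
    refine ⟨fun _ => ContinuousLinearMap.id ℂ _, fun _ _ => le_rfl, fun i u => ?_⟩
    simp [k1_V]
  | succ t ih =>
    obtain ⟨B, hB1, hB2⟩ := ih
    refine ⟨fun s => if s = t then Q.step t else (Q.step t).comp ((Q.oracleL x).comp (B s)),
      fun s φ => ?_, fun i u => ?_⟩
    · dsimp only
      split_ifs
      · exact Q.norm_step_le t φ
      · exact (Q.norm_step_le t _).trans ((norm_oracle_le Q x _).trans (hB1 s φ))
    · dsimp only
      rw [Finset.sum_range_succ, if_pos rfl]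
      have h1 : ∑ s ∈ Finset.range t,
          (if s = t then Q.step t else (Q.step t).comp ((Q.oracleL x).comp (B s)))
            (ow Q s i x u) =
          Q.step t (Q.oracleL x (∑ s ∈ Finset.range t, B s (ow Q s i x u))) := by
        rw [map_sum, map_sum]
        refine Finset.sum_congr rfl fun s hs => ?_
        rw [if_neg (Finset.mem_range.1 hs).ne]
        rfl
      rw [h1, ← hB2 i u, ← map_add]
      show Q.step t (Q.oracleL x (k1_V Q x t u)) -
        Q.step t (Q.oracleL (Lib_helper8.QAA.flip i x)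
          (k1_V Q (Lib_helper8.QAA.flip i x) t u)) = _
      rw [← map_sub]
      congr 1
      unfold ow
      rw [map_sub]
      abel

/-- The supports overlap at most `p` times. -/
theorem ow_supp (Q : Algorithm I W p) (s : ℕ) (x : I → Bool) (u : I → Vc W) :
    ‖∑ i, ow Q s i x (u i)‖ ^ 2 ≤ p * ∑ i, ‖ow Q s i x (u i)‖ ^ 2 := by
  rw [norm_sq_eq]
  have h1 : ∀ a, ‖(∑ i, ow Q s i x (u i) : EuclideanSpace ℂ W) a‖ ^ 2 ≤
      p * ∑ i, ‖ow Q s i x (u i) a‖ ^ 2 := by
    intro a
    have h2 : (∑ i, ow Q s i x (u i) : EuclideanSpace ℂ W) a =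
        ∑ i ∈ Q.query a, ow Q s i x (u i) a := by
      simp only [WithLp.ofLp_sum, Finset.sum_apply]
      symm
      refine Finset.sum_subset (Finset.subset_univ _) fun i _ hi => ?_
      rw [ow_zero Q s i x _ (by simpa [Algorithm.look] using hi)]
    rw [h2]
    calc ‖∑ i ∈ Q.query a, ow Q s i x (u i) a‖ ^ 2
        ≤ (∑ i ∈ Q.query a, ‖ow Q s i x (u i) a‖) ^ 2 :=
          pow_le_pow_left₀ (norm_nonneg _) (norm_sum_le _ _) 2
      _ ≤ ((Q.query a).card : ℝ) * ∑ i ∈ Q.query a, ‖ow Q s i x (u i) a‖ ^ 2 :=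
          sq_sum_le_card_mul_sum_sq
      _ ≤ p * ∑ i, ‖ow Q s i x (u i) a‖ ^ 2 := by
          refine mul_le_mul (by exact_mod_cast Q.card_query_le a) ?_
            (Finset.sum_nonneg fun _ _ => by positivity) (by positivity)
          exact Finset.sum_le_sum_of_subset_of_nonneg (Finset.subset_univ _)
            fun _ _ _ => by positivity
  refine (Finset.sum_le_sum fun a _ => h1 a).trans (le_of_eq ?_)
  rw [← Finset.mul_sum, Finset.sum_comm]
  congr 1
  refine Finset.sum_congr rfl fun i _ => ?_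
  rw [norm_sq_eq]

end operator

/-! ### One call -/

/-- the call as an algorithm with the initial state `u` -/
noncomputable def MemAlg.alg (H : MemAlg I A S E p) (h : List A) (e : E) (u : Vc (A × S))
    (hu : ‖u‖ ≤ 1) : Algorithm I (A × S) p where
  query := H.query h e
  phase := H.phase h e
  step := H.step h e
  init := u
  accept := ∅
  card_query_le := H.card_query_le h e
  norm_phase_le a x := (H.norm_phase h e a x).le
  phase_congr := H.phase_congr h e
  norm_step_le s φ := (H.norm_step h e s φ).le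
  norm_init_le := hu

/-- the call as an algorithm, without initial state -/
noncomputable def MemAlg.al (H : MemAlg I A S E p) (h : List A) (e : E) :
    Algorithm I (A × S) p := H.alg h e 0 (by simp)

lemma al_state (H : MemAlg I A S E p) (h : List A) (e : E) (φ : Vc S) (x : I → Bool) :
    ∀ s : ℕ, H.state h e φ s x = k1_V (H.al h e) x s (H.load h e φ)
  | 0 => rfl
  | s + 1 => by
    have ih := al_state H h e φ x s
    show H.step h e s (WithLp.toLp 2 fun a => H.phase h e a x * H.state h e φ s x a) =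
      (H.al h e).step s ((H.al h e).oracleL x (k1_V (H.al h e) x s (H.load h e φ)))
    rw [← ih]
    rfl

lemma alg_state (H : MemAlg I A S E p) (h : List A) (e : E) (φ : Vc S)
    (hu : ‖H.load h e φ‖ ≤ 1) (x : I → Bool) :
    ∀ s : ℕ, (H.alg h e (H.load h e φ) hu).state s x = H.state h e φ s x
  | 0 => rfl
  | s + 1 => by
    have ih := alg_state H h e φ hu x s
    show H.step h e s ((H.alg h e (H.load h e φ) hu).oracle x
      ((H.alg h e (H.load h e φ) hu).state s x)) = _
    rw [ih]
    rfl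

lemma state_norm (H : MemAlg I A S E p) (h : List A) (e : E) (φ : Vc S) (x : I → Bool) :
    ∀ s : ℕ, ‖H.state h e φ s x‖ = ‖φ‖
  | 0 => H.norm_load h e φ
  | s + 1 => by
    have ih := state_norm H h e φ x s
    show ‖H.step h e s (WithLp.toLp 2 fun a => H.phase h e a x * H.state h e φ s x a)‖ = _
    rw [H.norm_step, ← ih]
    have h1 : ‖(WithLp.toLp 2 fun a => H.phase h e a x * H.state h e φ s x a :
        Vc (A × S))‖ ^ 2 = ‖H.state h e φ s x‖ ^ 2 := by
      rw [norm_sq_eq, norm_sq_eq]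
      refine Finset.sum_congr rfl fun a _ => ?_
      simp only [norm_mul, H.norm_phase, one_mul]
    exact (sq_eq_sq₀ (norm_nonneg _) (norm_nonneg _)).1 h1

lemma state_add (H : MemAlg I A S E p) (h : List A) (e : E) (φ φ' : Vc S) (x : I → Bool)
    (s : ℕ) : H.state h e (φ + φ') s x = H.state h e φ s x + H.state h e φ' s x := by
  simp only [al_state, map_add]

lemma state_smul (H : MemAlg I A S E p) (h : List A) (e : E) (c : ℂ) (φ : Vc S) (x : I → Bool)
    (s : ℕ) : H.state h e (c • φ) s x = c • H.state h e φ s x := by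
  simp only [al_state, map_smul]

lemma mag_eq (H : MemAlg I A S E p) (R : ℕ) (h : List A) (i : I) (φ : Vc S) (x : I → Bool) :
    H.mag R h i φ x = ∑ e, H.weight h e * ∑ s ∈ Finset.range R,
      pm ((H.al h e).look i) (k1_V (H.al h e) x s (H.load h e φ)) := by
  unfold MemAlg.mag
  refine Finset.sum_congr rfl fun e _ => ?_
  congr 1
  refine Finset.sum_congr rfl fun s _ => ?_
  unfold pm Algorithm.look
  rw [Finset.sum_filter]
  refine Finset.sum_congr rfl fun a _ => ?_
  rw [← al_state]
  rfl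

lemma mag_nonneg (H : MemAlg I A S E p) (R : ℕ) (h : List A) (i : I) (φ : Vc S)
    (x : I → Bool) : 0 ≤ H.mag R h i φ x := by
  rw [mag_eq]
  exact Finset.sum_nonneg fun e _ => mul_nonneg (H.weight_nonneg h e)
    (Finset.sum_nonneg fun _ _ => pm_nonneg _ _)

lemma mag_smul (H : MemAlg I A S E p) (R : ℕ) (h : List A) (i : I) (c : ℂ) (φ : Vc S)
    (x : I → Bool) : H.mag R h i (c • φ) x = ‖c‖ ^ 2 * H.mag R h i φ x := by
  unfold MemAlg.mag
  simp only [state_smul, PiLp.smul_apply, smul_eq_mul, norm_mul, mul_pow]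
  rw [Finset.mul_sum]
  refine Finset.sum_congr rfl fun e _ => ?_
  rw [mul_left_comm]
  congr 1
  rw [Finset.mul_sum]
  refine Finset.sum_congr rfl fun s _ => ?_
  rw [Finset.mul_sum]
  refine Finset.sum_congr rfl fun a _ => ?_
  split_ifs
  · rfl
  · rw [mul_zero]

/-- The amplitudes of one call. -/
noncomputable def MemAlg.amp (H : MemAlg I A S E p) (R : ℕ) (h : List A) (x : I → Bool) :
    Vc S →ₗ[ℂ] Vc ((E × A) × S) where
  toFun φ := WithLp.toLp 2 fun z => (√(H.weight h z.1.1) : ℂ) *
    H.state h z.1.1 φ R x (z.1.2, z.2)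
  map_add' φ φ' := by
    ext z
    simp only [state_add, PiLp.add_apply, mul_add]
  map_smul' c φ := by
    ext z
    simp only [state_smul, PiLp.smul_apply, smul_eq_mul, RingHom.id_apply]
    ring

lemma amp_apply (H : MemAlg I A S E p) (R : ℕ) (h : List A) (x : I → Bool) (φ : Vc S)
    (z : (E × A) × S) : H.amp R h x φ z = (√(H.weight h z.1.1) : ℂ) *
      H.state h z.1.1 φ R x (z.1.2, z.2) := rfl

theorem os_norm_sq {Φ : Vc ((E × A) × S)} {c : E → ℝ} (hc : ∀ e, 0 ≤ c e)
    {φ : E → Vc (A × S)} (h : ∀ z, Φ z = (√(c z.1.1) : ℂ) * φ z.1.1 (z.1.2, z.2)) :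
    ‖Φ‖ ^ 2 = ∑ e, c e * ‖φ e‖ ^ 2 := by
  rw [norm_sq_eq, Fintype.sum_prod_type, Fintype.sum_prod_type]
  refine Finset.sum_congr rfl fun e _ => ?_
  rw [norm_sq_eq, Finset.mul_sum, Fintype.sum_prod_type]
  refine Finset.sum_congr rfl fun a _ => Finset.sum_congr rfl fun s _ => ?_
  rw [h ((e, a), s), norm_mul, mul_pow, Complex.norm_real,
    Real.norm_of_nonneg (Real.sqrt_nonneg _), Real.sq_sqrt (hc e)]

theorem os_dv (H : MemAlg I A S E p) (R : ℕ) (h : List A) (i : I) (x : I → Bool) (φ : Vc S)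
    (z : (E × A) × S) :
    odv (H.amp R h) i x φ z = (√(H.weight h z.1.1) : ℂ) *
      ((1 / 2 : ℂ) * (H.state h z.1.1 φ R x - H.state h z.1.1 φ R
        (Lib_helper8.QAA.flip i x)) (z.1.2, z.2)) := by
  rw [odv_apply]
  simp only [PiLp.smul_apply, PiLp.sub_apply, smul_eq_mul, amp_apply]
  ring

/-- A combination of the derivatives of one call. -/
theorem os_comb (H : MemAlg I A S E p) (R : ℕ) (h : List A) (x : I → Bool) (v : I → Vc S) :
    ‖∑ i, odv (H.amp R h) i x (v i)‖ ^ 2 ≤ ∑ e, H.weight h e * (R * ∑ s ∈ Finset.range R,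
      (1 / 4) * ‖∑ i, ow (H.al h e) s i x (H.load h e (v i))‖ ^ 2) := by
  choose B hB1 hB2 using fun e => ow_sub (H.al h e) x R
  have h1 := os_norm_sq (Φ := ∑ i, odv (H.amp R h) i x (v i)) (c := H.weight h)
    (H.weight_nonneg h) (φ := fun e => (1 / 2 : ℂ) • ∑ s ∈ Finset.range R,
      B e s (∑ i, ow (H.al h e) s i x (H.load h e (v i)))) (by
      intro z
      have h2 : ∑ s ∈ Finset.range R, B z.1.1 s
            (∑ i, ow (H.al h z.1.1) s i x (H.load h z.1.1 (v i))) =
          ∑ i, (H.state h z.1.1 (v i) R x - H.state h z.1.1 (v i) R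
            (Lib_helper8.QAA.flip i x)) := by
        simp_rw [map_sum]
        rw [Finset.sum_comm]
        refine Finset.sum_congr rfl fun i _ => ?_
        rw [al_state, al_state, hB2 z.1.1 i]
      dsimp only
      rw [h2]
      simp only [PiLp.smul_apply, WithLp.ofLp_sum, Finset.sum_apply, smul_eq_mul]
      rw [Finset.mul_sum, Finset.mul_sum]
      refine Finset.sum_congr rfl fun i _ => ?_
      rw [os_dv])
  rw [h1]
  refine Finset.sum_le_sum fun e _ => mul_le_mul_of_nonneg_left ?_ (H.weight_nonneg h e)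
  have h3 : ‖(1 / 2 : ℂ) • ∑ s ∈ Finset.range R, B e s
        (∑ i, ow (H.al h e) s i x (H.load h e (v i)))‖ ≤
      (1 / 2) * ∑ s ∈ Finset.range R, ‖∑ i, ow (H.al h e) s i x (H.load h e (v i))‖ := by
    rw [norm_smul]
    have h4 : ‖(1 / 2 : ℂ)‖ = 1 / 2 := by norm_num
    rw [h4]
    refine mul_le_mul_of_nonneg_left ?_ (by norm_num)
    refine (norm_sum_le _ _).trans ?_
    exact Finset.sum_le_sum fun s _ => hB1 e s _
  calc ‖(1 / 2 : ℂ) • ∑ s ∈ Finset.range R, B e s
        (∑ i, ow (H.al h e) s i x (H.load h e (v i)))‖ ^ 2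
      ≤ ((1 / 2) * ∑ s ∈ Finset.range R,
          ‖∑ i, ow (H.al h e) s i x (H.load h e (v i))‖) ^ 2 :=
        pow_le_pow_left₀ (norm_nonneg _) h3 2
    _ = (1 / 4) * (∑ s ∈ Finset.range R,
          ‖∑ i, ow (H.al h e) s i x (H.load h e (v i))‖) ^ 2 := by ring
    _ ≤ (1 / 4) * (((Finset.range R).card : ℝ) *
          ∑ s ∈ Finset.range R, ‖∑ i, ow (H.al h e) s i x (H.load h e (v i))‖ ^ 2) :=
        mul_le_mul_of_nonneg_left sq_sum_le_card_mul_sum_sq (by norm_num)
    _ = R * ∑ s ∈ Finset.range R,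
          (1 / 4) * ‖∑ i, ow (H.al h e) s i x (H.load h e (v i))‖ ^ 2 := by
        rw [Finset.card_range, ← Finset.mul_sum]
        ring

theorem os_light (H : MemAlg I A S E p) (R : ℕ) (h : List A) (x : I → Bool) (v : I → Vc S) :
    ‖∑ i, odv (H.amp R h) i x (v i)‖ ^ 2 ≤
      R * p * ∑ i, H.mag R h i (v i) (Lib_helper8.QAA.flip i x) := by
  refine (os_comb H R h x v).trans ?_
  have h1 : ∀ e, (R : ℝ) * ∑ s ∈ Finset.range R,
      (1 / 4) * ‖∑ i, ow (H.al h e) s i x (H.load h e (v i))‖ ^ 2 ≤ R * ∑ s ∈ Finset.range R,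
        p * ∑ i, pm ((H.al h e).look i)
          (k1_V (H.al h e) (Lib_helper8.QAA.flip i x) s (H.load h e (v i))) := by
    intro e
    refine mul_le_mul_of_nonneg_left (Finset.sum_le_sum fun s _ => ?_) (by positivity)
    have h2 := ow_supp (H.al h e) s x (fun i => H.load h e (v i))
    have h3 : ∑ i, ‖ow (H.al h e) s i x (H.load h e (v i))‖ ^ 2 ≤
        4 * ∑ i, pm ((H.al h e).look i)
          (k1_V (H.al h e) (Lib_helper8.QAA.flip i x) s (H.load h e (v i))) := by
      rw [Finset.mul_sum]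
      exact Finset.sum_le_sum fun i _ => ow_norm (H.al h e) s i x _
    have h5 := mul_le_mul_of_nonneg_left h3 (show (0 : ℝ) ≤ p by positivity)
    linarith
  refine (Finset.sum_le_sum fun e _ =>
    mul_le_mul_of_nonneg_left (h1 e) (H.weight_nonneg h e)).trans (le_of_eq ?_)
  simp only [mag_eq]
  simp_rw [Finset.mul_sum]
  rw [Finset.sum_comm]
  calc ∑ s ∈ Finset.range R, ∑ e, ∑ i, H.weight h e * (R * (p *
        pm ((H.al h e).look i)
          (k1_V (H.al h e) (Lib_helper8.QAA.flip i x) s (H.load h e (v i)))))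
      = ∑ s ∈ Finset.range R, ∑ i, ∑ e, H.weight h e * (R * (p *
        pm ((H.al h e).look i)
          (k1_V (H.al h e) (Lib_helper8.QAA.flip i x) s (H.load h e (v i))))) :=
        Finset.sum_congr rfl fun s _ => Finset.sum_comm
    _ = ∑ i, ∑ s ∈ Finset.range R, ∑ e, H.weight h e * (R * (p *
        pm ((H.al h e).look i)
          (k1_V (H.al h e) (Lib_helper8.QAA.flip i x) s (H.load h e (v i))))) :=
        Finset.sum_comm
    _ = ∑ i, ∑ e, ∑ s ∈ Finset.range R, R * p * (H.weight h e *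
        pm ((H.al h e).look i)
          (k1_V (H.al h e) (Lib_helper8.QAA.flip i x) s (H.load h e (v i)))) := by
        refine Finset.sum_congr rfl fun i _ => ?_
        rw [Finset.sum_comm]
        refine Finset.sum_congr rfl fun e _ => Finset.sum_congr rfl fun s _ => ?_
        ring

theorem os_flip (H : MemAlg I A S E p) (R : ℕ) (h : List A) (i : I) (x : I → Bool) (φ : Vc S) :
    odv (H.amp R h) i (Lib_helper8.QAA.flip i x) φ = - odv (H.amp R h) i x φ := by
  rw [odv_apply, odv_apply, Lib_helper8.QAA.flip_flip, ← smul_neg, neg_sub]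

lemma os_mag_sum (H : MemAlg I A S E p) (R : ℕ) (h : List A) (φ : Vc S) (x : I → Bool) :
    ∑ i, H.mag R h i φ x ≤ R * p * ‖φ‖ ^ 2 := by
  simp only [mag_eq]
  rw [Finset.sum_comm]
  calc ∑ e, ∑ i, H.weight h e * ∑ s ∈ Finset.range R,
        pm ((H.al h e).look i) (k1_V (H.al h e) x s (H.load h e φ))
      ≤ ∑ e, H.weight h e * (R * p * ‖φ‖ ^ 2) := by
        refine Finset.sum_le_sum fun e _ => ?_
        rw [← Finset.mul_sum, Finset.sum_comm]
        refine mul_le_mul_of_nonneg_left ?_ (H.weight_nonneg h e)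
        calc ∑ s ∈ Finset.range R, ∑ i, pm ((H.al h e).look i)
              (k1_V (H.al h e) x s (H.load h e φ))
            ≤ ∑ _s ∈ Finset.range R, (p : ℝ) * ‖φ‖ ^ 2 := by
              refine Finset.sum_le_sum fun s _ => (sum_pm_look _ _).trans ?_
              rw [← al_state, state_norm]
          _ = R * p * ‖φ‖ ^ 2 := by
              rw [Finset.sum_const, Finset.card_range, nsmul_eq_mul, mul_assoc]
    _ = R * p * ‖φ‖ ^ 2 := by rw [← Finset.sum_mul, H.sum_weight, one_mul]

theorem os_deriv (H : MemAlg I A S E p) (R : ℕ) (h : List A) (x : I → Bool) (φ : Vc S) :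
    ∑ i, ‖odv (H.amp R h) i x φ‖ ^ 2 ≤ (R * √p) ^ 2 * ‖φ‖ ^ 2 := by
  classical
  have h1 : ∀ i, ‖odv (H.amp R h) i x φ‖ ^ 2 ≤ ∑ e, H.weight h e * (R * ∑ s ∈ Finset.range R,
      pm ((H.al h e).look i) (k1_V (H.al h e) x s (H.load h e φ))) := by
    intro i
    have h2 : ‖odv (H.amp R h) i x φ‖ ^ 2 =
        ‖∑ j, odv (H.amp R h) j (Lib_helper8.QAA.flip i x) (if j = i then φ else 0)‖ ^ 2 := by
      rw [Finset.sum_eq_single i]
      · rw [if_pos rfl, os_flip, norm_neg]
      · intro j _ hj
        rw [if_neg hj, map_zero]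
      · intro hi
        exact absurd (Finset.mem_univ i) hi
    rw [h2]
    refine (os_comb H R h _ _).trans ?_
    refine Finset.sum_le_sum fun e _ => mul_le_mul_of_nonneg_left ?_ (H.weight_nonneg h e)
    refine mul_le_mul_of_nonneg_left (Finset.sum_le_sum fun s _ => ?_) (by positivity)
    have h3 : ∑ j, ow (H.al h e) s j (Lib_helper8.QAA.flip i x)
          (H.load h e (if j = i then φ else 0)) =
        ow (H.al h e) s i (Lib_helper8.QAA.flip i x) (H.load h e φ) := by
      rw [Finset.sum_eq_single i]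
      · rw [if_pos rfl]
      · intro j _ hj
        rw [if_neg hj, map_zero]
        unfold ow
        simp
      · intro hi
        exact absurd (Finset.mem_univ i) hi
    rw [h3]
    have h4 := ow_norm (H.al h e) s i (Lib_helper8.QAA.flip i x) (H.load h e φ)
    rw [Lib_helper8.QAA.flip_flip] at h4
    linarith
  have h5 : ∑ i, ‖odv (H.amp R h) i x φ‖ ^ 2 ≤ R * ∑ i, H.mag R h i φ x := by
    refine (Finset.sum_le_sum fun i _ => h1 i).trans (le_of_eq ?_)
    rw [Finset.mul_sum]
    refine Finset.sum_congr rfl fun i _ => ?_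
    rw [mag_eq, Finset.mul_sum]
    exact Finset.sum_congr rfl fun e _ => by ring
  refine h5.trans ?_
  have h6 := mul_le_mul_of_nonneg_left (os_mag_sum H R h φ x) (show (0 : ℝ) ≤ R by positivity)
  refine h6.trans (le_of_eq ?_)
  rw [mul_pow, Real.sq_sqrt (by positivity)]
  ring

theorem otame_stage (H : MemAlg I A S E p) (R : ℕ) (h : List A) (J : Finset I)
    {m : (I → Bool) → ℝ} (hm0 : ∀ x, 0 ≤ m x)
    (hm : ∀ x, ∀ i ∉ J, ∀ φ, H.mag R h i φ x ≤ m x * ‖φ‖ ^ 2) :
    OTame (H.amp R h) (fun _ => J) (fun x φ => m x * ‖φ‖ ^ 2) (R * p) (R * √p) where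
  norm_eq := by
    intro x φ
    have h1 := os_norm_sq (Φ := H.amp R h x φ) (c := H.weight h) (H.weight_nonneg h)
      (φ := fun e => H.state h e φ R x) (fun z => rfl)
    simp_rw [state_norm] at h1
    rw [← Finset.sum_mul, H.sum_weight, one_mul] at h1
    exact (sq_eq_sq₀ (norm_nonneg _) (norm_nonneg _)).1 h1
  M_nonneg := fun x φ => mul_nonneg (hm0 x) (by positivity)
  M_smul := fun x c φ => by
    rw [norm_smul, mul_pow]
    ring
  κ_nonneg := by positivity
  b_nonneg := by positivity
  deriv_le := os_deriv H R h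
  split := by
    refine ⟨fun i x => if i ∈ J then 0 else odv (H.amp R h) i x, ?_, ?_, ?_⟩
    · intro i x φ τ hi
      have hi' : i ∉ J := hi
      dsimp only
      rw [if_neg hi']
    · intro x v
      have h1 : ∑ i, (if i ∈ J then (0 : Vc S →ₗ[ℂ] Vc ((E × A) × S)) else
          odv (H.amp R h) i x) (v i) = ∑ i, odv (H.amp R h) i x (if i ∈ J then 0 else v i) := by
        refine Finset.sum_congr rfl fun i _ => ?_
        split_ifs
        · rw [map_zero, LinearMap.zero_apply]
        · rfl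
      dsimp only
      rw [h1]
      refine (os_light H R h x _).trans ?_
      refine mul_le_mul_of_nonneg_left (Finset.sum_le_sum fun i _ => ?_) (by positivity)
      by_cases hi : i ∈ J
      · rw [if_pos hi]
        have e1 := mag_smul H R h i 0 0 (Lib_helper8.QAA.flip i x)
        rw [zero_smul, norm_zero, zero_pow (by norm_num), zero_mul] at e1
        rw [e1]
        exact mul_nonneg (hm0 _) (by positivity)
      · rw [if_neg hi]
        exact hm _ i hi _
    · intro x φ
      refine le_trans (Finset.sum_le_sum fun i _ => ?_) (os_deriv H R h x φ)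
      dsimp only
      split_ifs
      · rw [LinearMap.zero_apply, sub_zero, os_flip, norm_neg]
      · rw [sub_self, norm_zero, zero_pow (by norm_num)]
        positivity

end Pool.Agent.QMem
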