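import Pool.Agent.Lib_helper64.HYB.AA
import Pool.Agent.Lib_helper64.HYB.SIM0
import Pool.Agent.Lib_helper30.QM.OS

/-!
# The transcripts of an algorithm with memory
-/

set_option autoImplicit false
set_option linter.unusedSectionVars false

open Finset

namespace Pool.Agent.QMem

open Pool.Agent.Lib_helper8.QAA
open Pool.Agent.HYB

variable {I : Type} [Fintype I] [DecidableEq I]
variable {A S E : Type} [Fintype A] [Fintype S] [Fintype E] {p : ℕ}

/-- Transcripts of `T` calls: the values of the hidden randomness, the outcomes, and at the end a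
basis state of the memory. -/
def MTr (A S E : Type) : ℕ → Type
  | 0 => S
  | T + 1 => (E × A) × MTr A S E T

noncomputable instance instFintypeMTr (A S E : Type) [Fintype A] [Fintype S] [Fintype E] :
    ∀ T, Fintype (MTr A S E T)
  | 0 => inferInstanceAs (Fintype S)
  | T + 1 =>
    haveI := instFintypeMTr A S E T
    inferInstanceAs (Fintype ((E × A) × MTr A S E T))

/-- The amplitudes of the transcripts of `T` calls from the record `h`, as a linear map of the
memory state. -/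
noncomputable def MemAlg.psi (H : MemAlg I A S E p) (R : ℕ) :
    ∀ T : ℕ, List A → (I → Bool) → (Vc S →ₗ[ℂ] Vc (MTr A S E T))
  | 0, _, _ => (LinearMap.id : Vc S →ₗ[ℂ] Vc S)
  | T + 1, h, x => ocomp (H.amp R h x) fun z => H.psi R T (z.2 :: h) x

/-- The union of the sets `J h'` over the calls of a transcript. -/
def msetQ (S E : Type) (J : List A → Finset I) : ∀ T : ℕ, List A → MTr A S E T → Finset I
  | 0, _, _ => ∅
  | T + 1, h, z => J h ∪ msetQ S E J T (z.1.2 :: h) z.2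

/-- The acceptance probability of a transcript. -/
def MemAlg.acc (H : MemAlg I A S E p) : ∀ T : ℕ, List A → MTr A S E T → ℝ
  | 0, h, _ => H.accept h
  | T + 1, h, z => H.acc T (z.1.2 :: h) z.2

/-- The light part of a run. -/
noncomputable def MemAlg.light (H : MemAlg I A S E p) (R : ℕ) (m : List A → (I → Bool) → ℝ) :
    ℕ → List A → Vc S → (I → Bool) → ℝ
  | 0, _, _, _ => 0
  | T + 1, h, φ, x => m h x * ‖φ‖ ^ 2 +
      ∑ z : E × A, H.light R m T (z.2 :: h) (slice z (H.amp R h x φ)) x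

lemma light_nonneg (H : MemAlg I A S E p) (R : ℕ) {m : List A → (I → Bool) → ℝ}
    (hm0 : ∀ h x, 0 ≤ m h x) (T : ℕ) : ∀ (h : List A) (φ : Vc S) (x : I → Bool),
    0 ≤ H.light R m T h φ x := by
  induction T with
  | zero => intro h φ x; exact le_rfl
  | succ T ih =>
    intro h φ x
    exact add_nonneg (mul_nonneg (hm0 h x) (by positivity)) (Finset.sum_nonneg fun z _ => ih _ _ _)

theorem otame_psi (H : MemAlg I A S E p) (R : ℕ) (J : List A → Finset I)
    {m : List A → (I → Bool) → ℝ} (hm0 : ∀ h x, 0 ≤ m h x)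
    (hm : ∀ h x, ∀ i ∉ J h, ∀ φ, H.mag R h i φ x ≤ m h x * ‖φ‖ ^ 2) (T : ℕ) (h : List A) :
    OTame (H.psi R T h) (msetQ S E J T h) (fun x φ => H.light R m T h φ x)
      (T * (R * p)) (T * (R * √p)) := by
  induction T generalizing h with
  | zero =>
    have hdv : ∀ i x φ, odv (H.psi R 0 h) i x φ = 0 := by
      intro i x φ
      rw [odv_apply]
      have : H.psi R 0 h x φ - H.psi R 0 h (Lib_helper8.QAA.flip i x) φ = 0 := sub_self _
      rw [this, smul_zero]
    refine ⟨fun x φ => rfl, fun x φ => le_rfl, fun x c φ => ?_, by simp, by simp, fun x φ => ?_,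
      ⟨fun _ _ => 0, ?_, ?_, ?_⟩⟩
    · simp [MemAlg.light]
    · simp [hdv]
    · intro i x φ τ _
      rw [hdv]
      rfl
    · intro x v
      simp
    · intro x φ
      simp [hdv]
  | succ T ih =>
    have hst := otame_stage H R h (J h) (hm0 h) (hm h)
    have hc := otame_comp (Qα := fun _ => J h) hst (κ₂ := T * (R * p)) (b₂ := T * (R * √p))
      (by positivity) (by positivity) (Ψ := fun z : E × A => H.psi R T (z.2 :: h))
      (Q := fun z : E × A => msetQ S E J T (z.2 :: h))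
      (M := fun z : E × A => fun x φ => H.light R m T (z.2 :: h) φ x) (fun z => ih (z.2 :: h))
    have e2 : (R * p + T * (R * p) : ℝ) = ((T + 1 : ℕ) : ℝ) * (R * p) := by push_cast; ring
    have e3 : (R * √p + T * (R * √p) : ℝ) = ((T + 1 : ℕ) : ℝ) * (R * √p) := by push_cast; ring
    rw [e2, e3] at hc
    exact hc

theorem mcard_setQ (J : List A → Finset I) {W : ℝ} (hW : ∀ h, ((J h).card : ℝ) ≤ W) (T : ℕ)
    (h : List A) (τ : MTr A S E T) : ((msetQ S E J T h τ).card : ℝ) ≤ T * W := by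
  induction T generalizing h with
  | zero =>
    have : msetQ S E J 0 h τ = ∅ := rfl
    rw [this]; simp
  | succ T ih =>
    have h1 : msetQ S E J (T + 1) h τ = J h ∪ msetQ S E J T (τ.1.2 :: h) τ.2 := rfl
    rw [h1]
    have h2 : ((J h ∪ msetQ S E J T (τ.1.2 :: h) τ.2).card : ℝ) ≤
        (J h).card + (msetQ S E J T (τ.1.2 :: h) τ.2).card := by
      exact_mod_cast Finset.card_union_le _ _
    refine h2.trans ?_
    have h3 := hW h
    have h4 := ih (τ.1.2 :: h) τ.2
    push_cast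
    linarith

theorem macc_mem (H : MemAlg I A S E p) (T : ℕ) (h : List A) (τ : MTr A S E T) :
    0 ≤ H.acc T h τ ∧ H.acc T h τ ≤ 1 := by
  induction T generalizing h with
  | zero => exact ⟨H.accept_nonneg h, H.accept_le_one h⟩
  | succ T ih => exact ih (τ.1.2 :: h) τ.2

/-! ### The acceptance probability -/

lemma next_smul (H : MemAlg I A S E p) (R : ℕ) (h : List A) (e : E) (a : A) (c : ℂ) (φ : Vc S)
    (x : I → Bool) : H.next R h e a (c • φ) x = c • H.next R h e a φ x := by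
  ext s
  show H.state h e (c • φ) R x (a, s) = c * H.state h e φ R x (a, s)
  rw [state_smul]
  rfl

lemma prob_smul (H : MemAlg I A S E p) (R T : ℕ) : ∀ (h : List A) (c : ℂ) (φ : Vc S)
    (x : I → Bool), H.prob R T h (c • φ) x = ‖c‖ ^ 2 * H.prob R T h φ x := by
  induction T with
  | zero =>
    intro h c φ x
    show H.accept h * ‖c • φ‖ ^ 2 = ‖c‖ ^ 2 * (H.accept h * ‖φ‖ ^ 2)
    rw [norm_smul, mul_pow]
    ring
  | succ T ih =>
    intro h c φ x
    show ∑ e, H.weight h e * ∑ a, H.prob R T (a :: h) (H.next R h e a (c • φ) x) x =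
      ‖c‖ ^ 2 * ∑ e, H.weight h e * ∑ a, H.prob R T (a :: h) (H.next R h e a φ x) x
    simp only [next_smul, ih]
    rw [Finset.mul_sum]
    refine Finset.sum_congr rfl fun e _ => ?_
    rw [← Finset.mul_sum]
    ring

lemma slice_amp (H : MemAlg I A S E p) (R : ℕ) (h : List A) (x : I → Bool) (φ : Vc S)
    (z : E × A) : slice z (H.amp R h x φ) = (√(H.weight h z.1) : ℂ) • H.next R h z.1 z.2 φ x := by
  ext s
  rfl

theorem mval_psi (H : MemAlg I A S E p) (R : ℕ) (T : ℕ) (h : List A) (φ : Vc S) :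
    val (fun x => H.psi R T h x φ) (H.acc T h) = H.prob R T h φ := by
  induction T generalizing h φ with
  | zero =>
    funext x
    show ∑ τ : S, H.accept h * ‖φ τ‖ ^ 2 = H.accept h * ‖φ‖ ^ 2
    rw [← Finset.mul_sum, ← norm_sq_eq]
  | succ T ih =>
    funext x
    have h1 : val (fun x => H.psi R (T + 1) h x φ) (H.acc (T + 1) h) x =
        ∑ z : (E × A) × MTr A S E T, H.acc T (z.1.2 :: h) z.2 *
          ‖H.psi R T (z.1.2 :: h) x (slice z.1 (H.amp R h x φ)) z.2‖ ^ 2 := rfl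
    rw [h1, Fintype.sum_prod_type]
    have h2 : ∀ z : E × A, ∑ τ : MTr A S E T, H.acc T (z.2 :: h) τ *
          ‖H.psi R T (z.2 :: h) x (slice z (H.amp R h x φ)) τ‖ ^ 2 =
        H.weight h z.1 * H.prob R T (z.2 :: h) (H.next R h z.1 z.2 φ x) x := by
      intro z
      have h3 : ∑ τ : MTr A S E T, H.acc T (z.2 :: h) τ *
          ‖H.psi R T (z.2 :: h) x (slice z (H.amp R h x φ)) τ‖ ^ 2 =
          H.prob R T (z.2 :: h) (slice z (H.amp R h x φ)) x :=
        congrFun (ih (z.2 :: h) (slice z (H.amp R h x φ))) x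
      rw [h3, slice_amp, prob_smul, Complex.norm_real, Real.norm_of_nonneg (Real.sqrt_nonneg _),
        Real.sq_sqrt (H.weight_nonneg h z.1)]
    rw [Finset.sum_congr rfl fun z _ => h2 z, Fintype.sum_prod_type]
    show _ = ∑ e, H.weight h e * ∑ a, H.prob R T (a :: h) (H.next R h e a φ x) x
    refine Finset.sum_congr rfl fun e _ => ?_
    rw [Finset.mul_sum]

/-! ### The general theorems -/

lemma qm_kappa (R T p : ℕ) :
    ((T : ℝ) * (R * p)) * ((T : ℝ) * (R * √p)) ^ 2 = ((T : ℝ) * R) ^ 3 * (p : ℝ) ^ 2 := by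
  have h1 : √(p : ℝ) ^ 2 = p := Real.sq_sqrt (Nat.cast_nonneg p)
  calc ((T : ℝ) * (R * p)) * ((T : ℝ) * (R * √p)) ^ 2
      = ((T : ℝ) * R) ^ 3 * p * √(p : ℝ) ^ 2 := by ring
    _ = ((T : ℝ) * R) ^ 3 * (p : ℝ) ^ 2 := by rw [h1]; ring

theorem qm_general (H : MemAlg I A S E p) {φ₀ : Vc S} (hφ : ‖φ₀‖ = 1) (R : ℕ) {T : ℕ}
    (hT : 0 < T) (J : List A → Finset I) {m : List A → (I → Bool) → ℝ} {W v : ℝ}
    (hm0 : ∀ h x, 0 ≤ m h x)
    (hm : ∀ h x, ∀ i ∉ J h, ∀ φ, H.mag R h i φ x ≤ m h x * ‖φ‖ ^ 2)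
    (hW0 : 0 < W) (hW : ∀ h, ((J h).card : ℝ) ≤ W) (hv : 0 < v)
    (hvar : variance (H.prob R T [] φ₀) = v)
    (hs : 2 ^ 16 * ((T * R) ^ 3 * p ^ 2 * ex (H.light R m T [] φ₀)) ≤ v ^ 2) :
    ∃ i, v ^ 4 / (2 ^ 10 * (T * W) ^ 4) ≤ influence (H.prob R T [] φ₀) i := by
  have hvx : ex (fun x => H.prob R T [] φ₀ x ^ 2) - ex (H.prob R T [] φ₀) ^ 2 = v := hvar
  have hT' : (0 : ℝ) < T := by exact_mod_cast hT
  have hval := mval_psi H R T [] φ₀
  have key := aa_tame ((otame_psi H R J hm0 hm T []).tame hφ) (g := H.acc T [])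
    (fun τ => (macc_mem H T [] τ).1) (fun τ => (macc_mem H T [] τ).2) (v := v) (W := T * W) hv
    (by rw [hval]; exact hvx) (by positivity) (mcard_setQ J hW T [])
    (by rw [qm_kappa]; exact hs)
  rw [hval] at key
  exact key

theorem qm_sim_general (H : MemAlg I A S E p) {φ₀ : Vc S} (hφ : ‖φ₀‖ = 1) (R : ℕ) {T : ℕ}
    (hT : 0 < T) (J : List A → Finset I) {m : List A → (I → Bool) → ℝ} {W ε δ : ℝ}
    (hm0 : ∀ h x, 0 ≤ m h x)
    (hm : ∀ h x, ∀ i ∉ J h, ∀ φ, H.mag R h i φ x ≤ m h x * ‖φ‖ ^ 2)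
    (hW0 : 0 < W) (hW : ∀ h, ((J h).card : ℝ) ≤ W) (hε : 0 < ε) (hδ : 0 < δ)
    (hs : 2 ^ 14 * ((T * R) ^ 3 * p ^ 2 * ex (H.light R m T [] φ₀)) ≤ ε ^ 4 * δ ^ 2) :
    ∃ t : Lib_helper93.QSim.DTree I ℝ, (t.depth : ℝ) ≤ 8 * (T * W) ^ 2 / (ε ^ 2 * δ ^ 2) ∧
      Lib_helper93.QSim.pr {x | ε < |H.prob R T [] φ₀ x - t.eval x|} ≤ δ := by
  have hT' : (0 : ℝ) < T := by exact_mod_cast hT
  have hval := mval_psi H R T [] φ₀
  have key := sim_tame ((otame_psi H R J hm0 hm T []).tame hφ) (g := H.acc T [])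
    (fun τ => (macc_mem H T [] τ).1) (fun τ => (macc_mem H T [] τ).2) (W := T * W)
    (by positivity) (mcard_setQ J hW T []) hε hδ (by rw [qm_kappa]; exact hs)
  rw [hval] at key
  exact key

end Pool.Agent.QMem
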