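import Pool.Agent.Lib_helper64.HYB.MR
import Pool.Agent.Lib_helper30.QM.OP

/-!
# The light part of a run
-/

set_option autoImplicit false
set_option linter.unusedSectionVars false

open Finset

namespace Pool.Agent.QMem

open Pool.Agent.Lib_helper8.QAA
open Pool.Agent.HYB

variable {I : Type} [Fintype I] [DecidableEq I]
variable {A S E : Type} [Fintype A] [Fintype S] [Fintype E] {p : ℕ}

/-! ### Degrees -/

/-- The coordinates have degree at most `D`. -/
def DgV (D : ℕ) {W : Type} (u : (I → Bool) → Vc W) : Prop := ∀ a, Dg D (fun x => u x a)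

lemma clm_coord {W W' : Type} [Fintype W] [DecidableEq W] (L : Vc W →L[ℂ] Vc W') (u : Vc W)
    (a : W') : L u a = ∑ b : W, L (EuclideanSpace.single b (1 : ℂ)) a * u b := by
  have h2 : u = ∑ b : W, u b • EuclideanSpace.single b (1 : ℂ) := by
    ext c
    simp only [WithLp.ofLp_sum, Finset.sum_apply, PiLp.smul_apply,
      smul_eq_mul, PiLp.single_apply, mul_ite, mul_one, mul_zero]
    rw [Finset.sum_ite_eq]
    simp
  conv_lhs => rw [h2, map_sum]
  simp only [map_smul, WithLp.ofLp_sum, Finset.sum_apply, PiLp.smul_apply, smul_eq_mul]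
  exact Finset.sum_congr rfl fun b _ => mul_comm _ _

lemma DgV.clm {D : ℕ} {W W' : Type} [Fintype W] (L : Vc W →L[ℂ] Vc W')
    {u : (I → Bool) → Vc W} (hu : DgV D u) : DgV D (fun x => L (u x)) := by
  classical
  intro a
  have h3 : Dg D (fun x => ∑ b : W, L (EuclideanSpace.single b (1 : ℂ)) a * u x b) :=
    Dg.sum _ fun b _ => Dg.const_mul _ (hu b)
  refine (congrArg (Dg _) ?_).mpr h3
  funext x
  exact clm_coord L (u x) a

lemma DgV.oracle {D : ℕ} {W : Type} [Fintype W] (Q : Algorithm I W p)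
    {u : (I → Bool) → Vc W} (hu : DgV D u) : DgV (D + p) (fun x => Q.oracleL x (u x)) := by
  intro a
  have h4 : Dg p (fun x => Q.phase a x) :=
    Dg.of_junta (Q.query a) (Q.card_query_le a) (Q.phase_congr a)
  have h5 := h4.mul (hu a)
  rw [add_comm] at h5
  refine (congrArg (Dg _) ?_).mpr h5
  funext x
  show Q.oracleL x (u x) a = _
  rw [oracleL_apply]
  rfl

lemma DgV.k1V {D : ℕ} {W : Type} [Fintype W] (Q : Algorithm I W p)
    {u : (I → Bool) → Vc W} (hu : DgV D u) (s : ℕ) :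
    DgV (D + s * p) (fun x => k1_V Q x s (u x)) := by
  induction s with
  | zero =>
    rw [Nat.zero_mul, Nat.add_zero]
    exact hu
  | succ s ih =>
    have h1 : DgV (D + s * p + p) (fun x => Q.step s (Q.oracleL x (k1_V Q x s (u x)))) :=
      DgV.clm (Q.step s) (DgV.oracle Q ih)
    rw [show D + (s + 1) * p = D + s * p + p by ring]
    exact h1

lemma DgV.norm_sq {D : ℕ} {W : Type} [Fintype W] {u : (I → Bool) → Vc W} (hu : DgV D u) :
    Dg (2 * D) (fun x => ((‖u x‖ ^ 2 : ℝ) : ℂ)) := by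
  have h1 : Dg (2 * D) (fun x => ∑ a : W, ((‖u x a‖ ^ 2 : ℝ) : ℂ)) :=
    Dg.sum _ fun a _ => (hu a).norm_sq
  refine (congrArg (Dg _) ?_).mpr h1
  funext x
  rw [Lib_helper8.QAA.norm_sq_eq]
  push_cast
  rfl

lemma DgV.slice_amp {D : ℕ} (H : MemAlg I A S E p) (R : ℕ) (h : List A)
    {v : (I → Bool) → Vc S} (hv : DgV D v) (z : E × A) :
    DgV (D + R * p) (fun x => slice z (H.amp R h x (v x))) := by
  intro s
  have h1 : DgV (D + R * p) (fun x => k1_V (H.al h z.1) x R (H.load h z.1 (v x))) :=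
    DgV.k1V (H.al h z.1) (DgV.clm (H.load h z.1) hv) R
  have h2 := Dg.const_mul (√(H.weight h z.1) : ℂ) (h1 (z.2, s))
  refine (congrArg (Dg _) ?_).mpr h2
  funext x
  show _ = (√(H.weight h z.1) : ℂ) * k1_V (H.al h z.1) x R (H.load h z.1 (v x)) (z.2, s)
  rw [← al_state]
  rfl

/-! ### The bound -/

lemma amp_norm (H : MemAlg I A S E p) (R : ℕ) (h : List A) (x : I → Bool) (φ : Vc S) :
    ‖H.amp R h x φ‖ ^ 2 = ‖φ‖ ^ 2 := by
  have h1 := os_norm_sq (Φ := H.amp R h x φ) (c := H.weight h) (H.weight_nonneg h)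
    (φ := fun e => H.state h e φ R x) (fun z => rfl)
  simp_rw [state_norm] at h1
  rw [← Finset.sum_mul, H.sum_weight, one_mul] at h1
  exact h1

/-- The function is small on the average for the weights of degree at most `q`. -/
def qmLight (m : (I → Bool) → ℝ) (q : ℕ) (Λ : ℝ) : Prop :=
  ∀ (D : ℕ) (P : (I → Bool) → ℝ), D ≤ q → (∀ x, 0 ≤ P x) → Dg D (fun x => (P x : ℂ)) →
    ex (fun x => P x * m x) ≤ Λ * ex P

lemma qm_of_le {m : (I → Bool) → ℝ} (q : ℕ) {Λ : ℝ} (hm : ∀ x, m x ≤ Λ) : qmLight m q Λ := by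
  intro D P _ hP _
  have h1 : ∀ x, P x * m x ≤ Λ * P x := by
    intro x
    have := mul_le_mul_of_nonneg_left (hm x) (hP x)
    linarith
  refine (ex_mono h1).trans ?_
  rw [ex_const_mul]

theorem qm_light (H : MemAlg I A S E p) (R : ℕ) {m : List A → (I → Bool) → ℝ} {q : ℕ} {Λ : ℝ}
    (hm : ∀ h, qmLight (m h) q Λ) (T : ℕ) :
    ∀ (D : ℕ) (h : List A) (v : (I → Bool) → Vc S), DgV D v →
    2 * D + T * (2 * (R * p)) ≤ q →
    ex (fun x => H.light R m T h (v x) x) ≤ T * Λ * ex (fun x => ‖v x‖ ^ 2) := by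
  induction T with
  | zero =>
    intro D h v _ _
    simp [MemAlg.light, ex_const]
  | succ T ih =>
    intro D h v hv hD
    have h1 := hm h (2 * D) (fun x => ‖v x‖ ^ 2) (by
      have : 0 ≤ (T + 1) * (2 * (R * p)) := Nat.zero_le _
      omega) (fun x => by positivity) hv.norm_sq
    have e1 : (fun x => H.light R m (T + 1) h (v x) x) =
        fun x => ‖v x‖ ^ 2 * m h x +
          ∑ z : E × A, H.light R m T (z.2 :: h) (slice z (H.amp R h x (v x))) x := by
      funext x
      show m h x * ‖v x‖ ^ 2 + _ = _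
      rw [mul_comm]
    rw [e1, ex_add, ex_sum]
    have h2 : ∀ z : E × A, ex (fun x => H.light R m T (z.2 :: h)
        (slice z (H.amp R h x (v x))) x) ≤
        T * Λ * ex (fun x => ‖slice z (H.amp R h x (v x))‖ ^ 2) := by
      intro z
      refine ih (D + R * p) (z.2 :: h) (fun x => slice z (H.amp R h x (v x)))
        (hv.slice_amp H R h z) ?_
      have : 2 * D + (T + 1) * (2 * (R * p)) = 2 * (D + R * p) + T * (2 * (R * p)) := by ring
      omega
    have h4 : ∑ z : E × A, ex (fun x => ‖slice z (H.amp R h x (v x))‖ ^ 2) =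
        ex (fun x => ‖v x‖ ^ 2) := by
      rw [← ex_sum]
      congr 1
      funext x
      rw [slice_norm, amp_norm]
    have h5 : ∑ z : E × A, ex (fun x => H.light R m T (z.2 :: h)
        (slice z (H.amp R h x (v x))) x) ≤ T * Λ * ex (fun x => ‖v x‖ ^ 2) := by
      refine (Finset.sum_le_sum fun z _ => h2 z).trans ?_
      rw [← Finset.mul_sum, h4]
    push_cast
    linarith

end Pool.Agent.QMem
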